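import Pool.Agent.Work.MP_7ec17a_gt_M.Sweep

/-!
# A narrow cap and its small translates
-/

set_option autoImplicit false

open Set

namespace Pool.MP_7ec17a_gt.M

open Pool.MP_7ec17a_gt.T

/-- An arc below the level `L`, with its two ends on that level, which is deep compared with its
width. -/
structure Arc (a : ℝ → ℂ) (L κ sA : ℝ) : Prop where
  cont : Continuous a
  lo : ∀ t, t ≤ 0 → a t = a 0
  hi : ∀ t, 1 ≤ t → a t = a 1
  inj : InjOn a (Icc 0 1)
  im0 : (a 0).im = L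
  im1 : (a 1).im = L
  imlt : ∀ t ∈ Ioo (0 : ℝ) 1, (a t).im < L
  relt : (a 0).re < (a 1).re
  hs : sA ∈ Ioo (0 : ℝ) 1
  low : ∀ t ∈ Icc (0 : ℝ) 1, (a sA).im ≤ (a t).im
  κpos : 0 < κ
  deep : ∀ s ∈ Icc (0 : ℝ) 1, ∀ t ∈ Icc (0 : ℝ) 1,
    2 * κ * ((a s).re - (a t).re) < L - (a sA).im

/-- The arc closed by a segment. -/
noncomputable def loop (a : ℝ → ℂ) (t : ℝ) : ℂ := a t + cl (t - 1) • (a 0 - a 1)

namespace Arc

variable {a : ℝ → ℂ} {L κ sA : ℝ} (A : Arc a L κ sA)

lemma loop_01 {t : ℝ} (ht : t ≤ 1) : loop a t = a t := by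
  unfold loop
  rw [cl_neg (by linarith), zero_smul, add_zero]

include A

lemma im_le {t : ℝ} (ht : t ∈ Icc (0 : ℝ) 1) : (a t).im ≤ L := by
  rcases lt_or_eq_of_le ht.1 with h | h
  · rcases lt_or_eq_of_le ht.2 with h' | h'
    · exact (A.imlt t ⟨h, h'⟩).le
    · rw [h', A.im1]
  · rw [← h, A.im0]

lemma loop_12 {t : ℝ} (h1 : 1 ≤ t) (h2 : t ≤ 2) : loop a t = a 1 + (t - 1) • (a 0 - a 1) := by
  unfold loop
  rw [A.hi t h1, cl_of_mem ⟨by linarith, by linarith⟩]

lemma loop_ge {t : ℝ} (h2 : 2 ≤ t) : loop a t = a 0 := by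
  unfold loop
  rw [A.hi t (by linarith), cl_big (by linarith), one_smul]
  ring

lemma loop_cases (t : ℝ) : (∃ s ∈ Icc (0 : ℝ) 1, loop a t = a s) ∨
    ∃ x ∈ Icc (0 : ℝ) 1, loop a t = a 1 + x • (a 0 - a 1) := by
  have m0 : (0 : ℝ) ∈ Icc (0 : ℝ) 1 := ⟨le_rfl, zero_le_one⟩
  rcases le_total t 0 with h | h
  · exact Or.inl ⟨0, m0, by rw [loop_01 (by linarith), A.lo t h]⟩
  · rcases le_total t 1 with h' | h'
    · exact Or.inl ⟨t, ⟨h, h'⟩, loop_01 h'⟩
    · rcases le_total t 2 with h2 | h2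
      · exact Or.inr ⟨t - 1, ⟨by linarith, by linarith⟩, A.loop_12 h' h2⟩
      · exact Or.inl ⟨0, m0, A.loop_ge h2⟩

lemma closed : Closed (loop a) where
  cont := by
    have := continuous_cl
    have := A.cont
    unfold loop
    fun_prop
  per := by
    rw [loop_01 zero_le_one, A.loop_ge le_rfl]
  comp := by
    have hc : Continuous (loop a) := by
      have := continuous_cl
      have := A.cont
      unfold loop
      fun_prop
    have h : range (loop a) = loop a '' Icc 0 2 := by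
      apply Subset.antisymm
      · rintro _ ⟨t, rfl⟩
        rcases le_total t 0 with h | h
        · refine ⟨0, ⟨le_rfl, by norm_num⟩, ?_⟩
          rw [loop_01 (show t ≤ 1 by linarith), loop_01 zero_le_one, A.lo t h]
        · rcases le_total t 2 with h2 | h2
          · exact ⟨t, ⟨h, h2⟩, rfl⟩
          · refine ⟨0, ⟨le_rfl, by norm_num⟩, ?_⟩
            rw [A.loop_ge h2, loop_01 zero_le_one]
      · rintro _ ⟨t, _, rfl⟩
        exact ⟨t, rfl⟩
    rw [h]
    exact isCompact_Icc.image hc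

/-- The curve winds around the points just inside. -/
lemma not_zer {σ : ℝ} (hσ : σ ∈ Ioo 0 sA) {v : ℂ}
    (hray : ∀ t ∈ Icc 0 sA, ∀ x : ℝ, 0 ≤ x → a t ≠ a σ + v + x)
    (hfar : ∀ x ∈ Icc (0 : ℝ) 1, ∀ t ∈ Icc sA 1, a t ≠ a σ + x • v)
    (h1 : (a sA).im < (a σ).im) (h2 : (a σ).im < L)
    (h3 : (a sA).im < (a σ).im + v.im) (h4 : (a σ).im + v.im < L) :
    ¬ Zer (loop a) (a σ + v) := by
  rintro ⟨θ', hθ'c, hθ', hper⟩
  have hpi := Real.pi_pos
  have hsA := A.hs
  set z := a σ + v with hz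
  have hzim : z.im = (a σ).im + v.im := by rw [hz, Complex.add_im]
  have s0 : 0 < Real.sin (θ' 0) := (hθ' 0).sin_pos (by
    rw [loop_01 zero_le_one, Complex.sub_im, A.im0, hzim]; linarith)
  obtain ⟨n, hn⟩ := exists_shift s0
  set θ : ℝ → ℝ := fun t => θ' t + n * (2 * Real.pi) with hθdef
  have hθc : Continuous θ := by fun_prop
  have hθ : ∀ t, Pol (loop a t - z) (θ t) := fun t => (hθ' t).shift n
  have hne : ∀ t ∈ Icc 0 sA, a t - z ≠ 0 := fun t ht h => by
    refine hray t ht 0 le_rfl ?_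
    rw [Complex.ofReal_zero, add_zero]
    exact sub_eq_zero.1 h
  -- the first part
  have p1 : ∀ t ∈ Icc 0 sA, θ t ≠ 0 ∧ θ t ≠ 2 * Real.pi := by
    have key : ∀ t ∈ Icc 0 sA, Real.cos (θ t) ≠ 1 := by
      intro t ht hcos
      have hP := hθ t
      rw [loop_01 (by linarith [ht.2, hsA.2])] at hP
      have hsin : Real.sin (θ t) = 0 := by
        have := Real.sin_sq_add_cos_sq (θ t)
        rw [hcos] at this
        have h5 : Real.sin (θ t) ^ 2 = 0 := by linarith
        exact pow_eq_zero_iff (two_ne_zero) |>.1 h5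
      refine hray t ht ‖a t - z‖ (norm_nonneg _) ?_
      have h6 := hP.1
      have h7 := hP.2
      rw [hcos, mul_one] at h6
      rw [hsin, mul_zero] at h7
      apply Complex.ext
      · rw [Complex.add_re, Complex.ofReal_re, ← h6, Complex.sub_re]; ring
      · rw [Complex.add_im, Complex.ofReal_im, add_zero]
        rw [Complex.sub_im] at h7
        linarith
    intro t ht
    constructor
    · intro h
      exact key t ht (by rw [h, Real.cos_zero])
    · intro h
      exact key t ht (by rw [h, Real.cos_two_pi])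
  have q1 := stay isPreconnected_Icc hθc.continuousOn p1 (⟨le_rfl, hsA.1.le⟩ : (0 : ℝ) ∈ Icc 0 sA)
    ⟨hn.1, by linarith [hn.2]⟩ sA ⟨hsA.1.le, le_rfl⟩
  have s1 : Real.sin (θ sA) < 0 := (hθ sA).sin_neg (by
    rw [loop_01 hsA.2.le, Complex.sub_im, hzim]; linarith)
  have q1' : Real.pi < θ sA := by
    by_contra hc
    push Not at hc
    have := Real.sin_nonneg_of_nonneg_of_le_pi q1.1.le hc
    linarith
  -- the second part
  set bs : ℝ → ℂ := fun μ => a (σ * cl (2 * μ)) + cl (2 * μ - 1) • v with hbs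
  have hbc : Continuous bs := by
    have := continuous_cl
    have := A.cont
    fun_prop
  have b0 : bs 0 = a 0 := by
    simp only [hbs]
    rw [cl_neg (by norm_num), cl_neg (by norm_num), mul_zero, zero_smul, add_zero]
  have b1 : bs 1 = z := by
    simp only [hbs]
    rw [cl_big (by norm_num), cl_big (by norm_num), mul_one, one_smul]
  have bcase : ∀ μ ∈ Icc (0 : ℝ) 1, (∃ s ∈ Icc 0 σ, bs μ = a s) ∨
      ∃ x ∈ Icc (0 : ℝ) 1, bs μ = a σ + x • v := by
    intro μ hμ
    rcases le_total (2 * μ) 1 with h | h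
    · refine Or.inl ⟨σ * cl (2 * μ), ⟨mul_nonneg hσ.1.le (cl_mem _).1, ?_⟩, ?_⟩
      · have := mul_le_mul_of_nonneg_left (cl_mem (2 * μ)).2 hσ.1.le
        linarith
      · simp only [hbs]
        rw [cl_neg (show 2 * μ - 1 ≤ 0 by linarith), zero_smul, add_zero]
    · refine Or.inr ⟨cl (2 * μ - 1), cl_mem _, ?_⟩
      simp only [hbs]
      rw [cl_big h, mul_one]
  have him : ∀ μ ∈ Icc (0 : ℝ) 1, (a sA).im ≤ (bs μ).im ∧ (bs μ).im ≤ L := by
    intro μ hμ
    rcases bcase μ hμ with ⟨s, hs, e⟩ | ⟨x, hx, e⟩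
    · have hs' : s ∈ Icc (0 : ℝ) 1 := ⟨hs.1, by linarith [hs.2, hσ.2, hsA.2]⟩
      rw [e]
      exact ⟨A.low s hs', A.im_le hs'⟩
    · rw [e, Complex.add_im, Complex.smul_im, smul_eq_mul]
      constructor
      · nlinarith [mul_nonneg hx.1 (by linarith : (0 : ℝ) ≤ (a σ).im + v.im - (a sA).im),
          mul_nonneg (by linarith [hx.2] : (0 : ℝ) ≤ 1 - x)
            (by linarith : (0 : ℝ) ≤ (a σ).im - (a sA).im)]
      · nlinarith [mul_nonneg hx.1 (by linarith : (0 : ℝ) ≤ L - ((a σ).im + v.im)),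
          mul_nonneg (by linarith [hx.2] : (0 : ℝ) ≤ 1 - x)
            (by linarith : (0 : ℝ) ≤ L - (a σ).im)]
  have q2 := sweep (a := a) (bs := bs) (ϑ := fun t => θ t - 2 * Real.pi) A.cont hbc hsA.2
    (by
      intro μ hμ t ht h
      rcases bcase μ hμ with ⟨s, hs, e⟩ | ⟨x, hx, e⟩
      · rw [e] at h
        have := A.inj ⟨by linarith [ht.1, hsA.1], ht.2⟩
          ⟨hs.1, by linarith [hs.2, hσ.2, hsA.2]⟩ h
        linarith [hs.2, hσ.2, ht.1]
      · rw [e] at h
        exact hfar x hx t ht h)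
    (fun t ht => by rw [b0, A.im0]; exact A.im_le ⟨by linarith [ht.1, hsA.1], ht.2⟩)
    (by rw [b0, A.im0, A.im1]) (by rw [b0]; exact A.relt)
    (fun μ hμ => (him μ hμ).1) (fun μ hμ => by rw [A.im1]; exact (him μ hμ).2)
    (by rw [b1, hzim]; linarith) (by rw [b1, hzim, A.im1]; linarith)
    (by fun_prop)
    (fun t ht => by
      have h5 := (hθ t).shift (-1)
      rw [loop_01 ht.2] at h5
      have e : θ t + ((-1 : ℤ) : ℝ) * (2 * Real.pi) = θ t - 2 * Real.pi := by push_cast; ring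
      rw [e] at h5
      rw [b1]
      exact h5)
    ⟨by linarith, by linarith [q1.2]⟩
  -- the last part
  have q3 := stay_shift (S := Icc (1 : ℝ) 2) isPreconnected_Icc (θ := θ) (φ := 2 * Real.pi)
    hθc.continuousOn
    (fun t ht => by
      rw [Real.sin_sub_two_pi]
      refine (hθ t).sin_pos ?_
      rw [A.loop_12 ht.1 ht.2, Complex.sub_im, Complex.add_im, Complex.smul_im, Complex.sub_im,
        A.im0, A.im1, hzim]
      simp only [sub_self, smul_zero]
      linarith) (⟨le_rfl, by norm_num⟩ : (1 : ℝ) ∈ Icc (1 : ℝ) 2)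
    ⟨by linarith [q2.1], by linarith [q2.2]⟩ 2 ⟨by norm_num, le_rfl⟩
  have h8 : θ 0 = θ 2 := by simp only [hθdef]; rw [hper]
  have h9 := hn.2
  have h10 : θ 0 = θ' 0 + n * (2 * Real.pi) := rfl
  linarith [q3.1]

/-- Small translates of a narrow cap. -/
theorem main : ∃ σ1 ∈ Ioo (0 : ℝ) 1, ∃ σ2 ∈ Ioo (0 : ℝ) 1, ∃ h0 : ℝ, 0 < h0 ∧ ∃ F : ℂ → ℝ,
    Continuous F ∧ ∀ v : ℂ, |v.im| < κ * v.re → ‖v‖ < h0 →
      0 < F (a σ1 + v) ∧ F (a σ2 + v) < 0 ∧ ∀ x ∈ Icc (0 : ℝ) 1,
        F (a (σ1 + x * (σ2 - σ1)) + v) = 0 → a (σ1 + x * (σ2 - σ1)) + v ∈ a '' Icc 0 1 := by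
  have hκ := A.κpos
  have hsA := A.hs
  have m0 : (0 : ℝ) ∈ Icc (0 : ℝ) 1 := ⟨le_rfl, zero_le_one⟩
  have m1 : (1 : ℝ) ∈ Icc (0 : ℝ) 1 := ⟨zero_le_one, le_rfl⟩
  have msA : sA ∈ Icc (0 : ℝ) 1 := ⟨hsA.1.le, hsA.2.le⟩
  set m := (a sA).im with hm
  have hmL : m < L := A.imlt sA hsA
  set y0 := (L + m) / 2 with hy0
  have hac := A.cont
  -- the first point
  obtain ⟨σ1, hσ1, hmax⟩ := isCompact_Icc.exists_isMaxOn (s := Icc 0 sA)
    (f := fun t => κ * (a t).re - |(a t).im - y0|) ⟨0, le_rfl, hsA.1.le⟩ (by fun_prop)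
  obtain ⟨tt, htt, htt'⟩ : ∃ t ∈ Icc 0 sA, (a t).im = y0 := by
    have h := intermediate_value_Icc' (f := fun t => (a t).im) hsA.1.le (by fun_prop)
    have h2 : y0 ∈ Icc (a sA).im (a 0).im := by
      rw [A.im0, ← hm]
      constructor <;> linarith
    obtain ⟨t, ht, ht'⟩ := h h2
    exact ⟨t, ht, ht'⟩
  have hΞ := hmax htt
  simp only [mem_ofPred_eq] at hΞ
  rw [htt', sub_self, abs_zero, sub_zero] at hΞ
  have mσ1 : σ1 ∈ Icc (0 : ℝ) 1 := ⟨hσ1.1, hσ1.2.trans hsA.2.le⟩
  have mtt : tt ∈ Icc (0 : ℝ) 1 := ⟨htt.1, htt.2.trans hsA.2.le⟩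
  have hd := A.deep σ1 mσ1 tt mtt
  have habs : |(a σ1).im - y0| < (L - m) / 2 := by
    have : κ * (a σ1).re - κ * (a tt).re < (L - m) / 2 := by nlinarith
    linarith
  rw [abs_lt] at habs
  have i1 : m < (a σ1).im := by linarith [habs.1]
  have i2 : (a σ1).im < L := by linarith [habs.2]
  have hσ1' : σ1 ∈ Ioo 0 sA := by
    constructor
    · rcases lt_or_eq_of_le hσ1.1 with h | h
      · exact h
      · rw [← h, A.im0] at i2
        exact absurd i2 (lt_irrefl _)
    · rcases lt_or_eq_of_le hσ1.2 with h | h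
      · exact h
      · rw [h] at i1
        exact absurd i1 (lt_irrefl _)
  -- the second point
  obtain ⟨σ2, hσ2, hmin⟩ := isCompact_Icc.exists_isMinOn (s := Icc (0 : ℝ) 1)
    (f := fun t => (a t).im - κ * (a t).re) ⟨0, m0⟩ (by fun_prop)
  have hΨ := hmin msA
  simp only [mem_ofPred_eq] at hΨ
  have hσ2' : σ2 ∈ Ioo (0 : ℝ) 1 := by
    have hd0 := A.deep 0 m0 sA msA
    have hd1 := A.deep 1 m1 sA msA
    constructor
    · rcases lt_or_eq_of_le hσ2.1 with h | h
      · exact h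
      · exfalso
        rw [← h, A.im0] at hΨ
        nlinarith
    · rcases lt_or_eq_of_le hσ2.2 with h | h
      · exact h
      · exfalso
        rw [h, A.im1] at hΨ
        nlinarith
  -- the constants
  have hcomp : IsCompact (a '' Icc sA 1) := isCompact_Icc.image hac
  have hnot : a σ1 ∉ a '' Icc sA 1 := by
    rintro ⟨t, ht, e⟩
    have := A.inj ⟨by linarith [ht.1, hsA.1], ht.2⟩ mσ1 e
    linarith [hσ1'.2, ht.1]
  have hd1 : 0 < Metric.infDist (a σ1) (a '' Icc sA 1) :=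
    (hcomp.isClosed.notMem_iff_infDist_pos ⟨_, mem_image_of_mem a ⟨hsA.2.le, le_rfl⟩⟩).1 hnot
  obtain ⟨x0, hx0, hxmax⟩ := isCompact_Icc.exists_isMaxOn (s := Icc (0 : ℝ) 1)
    (f := fun x => (a (σ1 + x * (σ2 - σ1))).im) ⟨0, m0⟩ (by fun_prop)
  have hbet : ∀ x ∈ Icc (0 : ℝ) 1, σ1 + x * (σ2 - σ1) ∈ Ioo (0 : ℝ) 1 := by
    intro x hx
    have hσ1p : 0 < σ1 := hσ1'.1
    have hσ1q : σ1 < 1 := by linarith [hσ1'.2, hsA.2]
    have e : σ1 + x * (σ2 - σ1) = (1 - x) * σ1 + x * σ2 := by ring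
    rw [e]
    rcases lt_or_eq_of_le hx.1 with h | h
    · constructor
      · have := mul_pos h hσ2'.1
        have := mul_nonneg (by linarith [hx.2] : (0 : ℝ) ≤ 1 - x) hσ1p.le
        linarith
      · have := mul_lt_mul_of_pos_left hσ2'.2 h
        have := mul_le_mul_of_nonneg_left hσ1q.le (by linarith [hx.2] : (0 : ℝ) ≤ 1 - x)
        linarith
    · rw [← h]
      constructor <;> linarith
  have hM := A.imlt _ (hbet x0 hx0)
  set M := (a (σ1 + x0 * (σ2 - σ1))).im with hMdef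
  refine ⟨σ1, ⟨hσ1'.1, by linarith [hσ1'.2, hsA.2]⟩, σ2, hσ2',
    min (min ((a σ1).im - m) (L - (a σ1).im)) (min (Metric.infDist (a σ1) (a '' Icc sA 1)) (L - M)),
    lt_min (lt_min (by linarith) (by linarith)) (lt_min hd1 (by linarith)),
    Closed.side (loop a), A.closed.continuous_side, ?_⟩
  intro v hv hvn
  have n1 : ‖v‖ < (a σ1).im - m := lt_of_lt_of_le hvn ((min_le_left _ _).trans (min_le_left _ _))
  have n2 : ‖v‖ < L - (a σ1).im := lt_of_lt_of_le hvn ((min_le_left _ _).trans (min_le_right _ _))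
  have n3 : ‖v‖ < Metric.infDist (a σ1) (a '' Icc sA 1) :=
    lt_of_lt_of_le hvn ((min_le_right _ _).trans (min_le_left _ _))
  have n4 : ‖v‖ < L - M := lt_of_lt_of_le hvn ((min_le_right _ _).trans (min_le_right _ _))
  have n5 := abs_le.1 (Complex.abs_im_le_norm v)
  have hv' := abs_lt.1 hv
  have hseg : ∀ x : ℝ, (a 1 + x • (a 0 - a 1)).im = L := fun x => by
    rw [Complex.add_im, Complex.smul_im, Complex.sub_im, A.im0, A.im1]
    simp only [sub_self, smul_zero, add_zero]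
  -- far from the second half
  have hfar : ∀ x ∈ Icc (0 : ℝ) 1, ∀ t ∈ Icc sA 1, a t ≠ a σ1 + x • v := by
    intro x hx t ht h
    have h5 : Metric.infDist (a σ1) (a '' Icc sA 1) ≤ dist (a σ1) (a t) :=
      Metric.infDist_le_dist_of_mem (mem_image_of_mem a ht)
    rw [h, dist_eq_norm] at h5
    have e : a σ1 - (a σ1 + x • v) = -(x • v) := by ring
    rw [e, norm_neg, norm_smul, Real.norm_eq_abs, abs_of_nonneg hx.1] at h5
    have := mul_le_mul_of_nonneg_right hx.2 (norm_nonneg v)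
    linarith
  -- the ray avoids the first half
  have hray : ∀ t ∈ Icc 0 sA, ∀ x : ℝ, 0 ≤ x → a t ≠ a σ1 + v + x := by
    intro t ht x hx h
    have h5 := hmax ht
    simp only [mem_ofPred_eq] at h5
    rw [h] at h5
    simp only [Complex.add_re, Complex.add_im, Complex.ofReal_re, Complex.ofReal_im,
      add_zero] at h5
    have h6 : |(a σ1).im + v.im - y0| ≤ |(a σ1).im - y0| + |v.im| := by
      have e : (a σ1).im + v.im - y0 = ((a σ1).im - y0) + v.im := by ring
      rw [e]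
      exact abs_add_le _ _
    have h7 := mul_nonneg hκ.le hx
    nlinarith
  refine ⟨A.closed.side_pos ?_ ?_, A.closed.side_neg ?_ ?_, ?_⟩
  · rintro ⟨t, ht⟩
    rcases A.loop_cases t with ⟨s, hs, e⟩ | ⟨x, hx, e⟩
    · rw [e] at ht
      rcases le_total s sA with h | h
      · refine hray s ⟨hs.1, h⟩ 0 le_rfl ?_
        rw [Complex.ofReal_zero, add_zero]
        exact ht
      · refine hfar 1 m1 s ⟨h, hs.2⟩ ?_
        rw [one_smul]
        exact ht
    · rw [e] at ht
      have := congrArg Complex.im ht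
      rw [hseg, Complex.add_im] at this
      linarith [n5.2]
  · exact A.not_zer hσ1' hray hfar i1 i2 (by linarith [n5.1]) (by linarith [n5.2])
  · rintro ⟨t, ht⟩
    have h5 : (a σ2).im - κ * (a σ2).re ≤ (loop a t).im - κ * (loop a t).re := by
      rcases A.loop_cases t with ⟨s, hs, e⟩ | ⟨x, hx, e⟩
      · rw [e]
        exact hmin hs
      · rw [e, hseg]
        have k0 := hmin m0
        have k1 := hmin m1
        simp only [mem_ofPred_eq] at k0 k1
        rw [A.im0] at k0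
        rw [A.im1] at k1
        simp only [Complex.add_re, Complex.smul_re, Complex.sub_re, smul_eq_mul]
        nlinarith [mul_nonneg hx.1 (sub_nonneg.2 k0),
          mul_nonneg (by linarith [hx.2] : (0 : ℝ) ≤ 1 - x) (sub_nonneg.2 k1)]
    rw [ht] at h5
    simp only [Complex.add_re, Complex.add_im] at h5
    nlinarith [hv'.2]
  · refine zer_of_half A.closed.cont A.closed.per (κ := κ) fun t => ?_
    have h5 : (a σ2).im - κ * (a σ2).re ≤ (loop a t).im - κ * (loop a t).re := by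
      rcases A.loop_cases t with ⟨s, hs, e⟩ | ⟨x, hx, e⟩
      · rw [e]
        exact hmin hs
      · rw [e, hseg]
        have k0 := hmin m0
        have k1 := hmin m1
        simp only [mem_ofPred_eq] at k0 k1
        rw [A.im0] at k0
        rw [A.im1] at k1
        simp only [Complex.add_re, Complex.smul_re, Complex.sub_re, smul_eq_mul]
        nlinarith [mul_nonneg hx.1 (sub_nonneg.2 k0),
          mul_nonneg (by linarith [hx.2] : (0 : ℝ) ≤ 1 - x) (sub_nonneg.2 k1)]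
    simp only [Complex.sub_re, Complex.sub_im, Complex.add_re, Complex.add_im]
    nlinarith [hv'.2]
  · intro x hx h
    obtain ⟨t, ht⟩ := A.closed.side_zero h
    rcases A.loop_cases t with ⟨s, hs, e⟩ | ⟨y, hy, e⟩
    · rw [← ht, e]
      exact mem_image_of_mem a hs
    · exfalso
      rw [e] at ht
      have h5 := congrArg Complex.im ht
      rw [hseg, Complex.add_im] at h5
      have h6 := hxmax hx
      simp only [mem_ofPred_eq] at h6
      rw [← hMdef] at h6
      linarith [n5.2]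

end Arc

end Pool.MP_7ec17a_gt.M
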