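import Pool.Agent.Work.MP_7ec17a_gt_M.Main

/-!
# Caps of a closed curve
-/

set_option autoImplicit false

open Set

namespace Pool.MP_7ec17a_gt.M

/-- Parametrisation by the unit interval. -/
lemma param {g : ℝ → ℂ} (hg : Continuous g) {α β c : ℝ} (hαβ : α < β)
    (hinj : InjOn g (Icc α β)) (hα : (g α).im = c) (hβ : (g β).im = c)
    (hlt : ∀ t ∈ Ioo α β, (g t).im < c) (hre : (g α).re < (g β).re) :
    ∃ a : ℝ → ℂ, Continuous a ∧ (∀ t, t ≤ 0 → a t = a 0) ∧ (∀ t, 1 ≤ t → a t = a 1) ∧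
      InjOn a (Icc 0 1) ∧ (a 0).im = c ∧ (a 1).im = c ∧ (∀ t ∈ Ioo (0 : ℝ) 1, (a t).im < c) ∧
      (a 0).re < (a 1).re ∧ (∀ t, ∃ x ∈ Icc α β, a t = g x) ∧
      ∀ x ∈ Icc α β, ∃ t ∈ Icc (0 : ℝ) 1, a t = g x := by
  have hd : 0 < β - α := by linarith
  have e0 : α + cl 0 * (β - α) = α := by rw [cl_neg le_rfl]; ring
  have e1 : α + cl 1 * (β - α) = β := by rw [cl_big le_rfl]; ring
  have hm : ∀ t, α + cl t * (β - α) ∈ Icc α β := fun t => by
    have h1 := mul_nonneg (cl_mem t).1 hd.le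
    have h2 := mul_le_mul_of_nonneg_right (cl_mem t).2 hd.le
    constructor <;> linarith
  refine ⟨fun t => g (α + cl t * (β - α)), ?_, fun t ht => ?_, fun t ht => ?_, ?_, ?_, ?_, ?_, ?_,
    fun t => ⟨_, hm t, rfl⟩, ?_⟩
  · have := continuous_cl
    fun_prop
  · simp only [cl_neg ht, cl_neg (le_refl (0 : ℝ))]
  · simp only [cl_big ht, cl_big (le_refl (1 : ℝ))]
  · intro s hs t ht h
    have h2 := hinj (hm s) (hm t) h
    rw [cl_of_mem hs, cl_of_mem ht] at h2
    have h3 : (s - t) * (β - α) = 0 := by linarith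
    rcases mul_eq_zero.1 h3 with h4 | h4
    · linarith
    · linarith
  · simp only [e0]
    exact hα
  · simp only [e1]
    exact hβ
  · intro t ht
    refine hlt _ ?_
    rw [cl_of_mem ⟨ht.1.le, ht.2.le⟩]
    have h1 := mul_pos ht.1 hd
    have h2 := mul_lt_mul_of_pos_right ht.2 hd
    constructor <;> linarith
  · simp only [e0, e1]
    exact hre
  · intro x hx
    refine ⟨(x - α) / (β - α), ?_, ?_⟩
    · constructor
      · exact div_nonneg (by linarith [hx.1]) hd.le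
      · rw [div_le_one hd]
        linarith [hx.2]
    · have h1 : (x - α) / (β - α) ∈ Icc (0 : ℝ) 1 := by
        constructor
        · exact div_nonneg (by linarith [hx.1]) hd.le
        · rw [div_le_one hd]
          linarith [hx.2]
      simp only [cl_of_mem h1]
      rw [div_mul_cancel₀ _ hd.ne']
      ring_nf

/-- The cap below a level. -/
lemma extract {g : ℝ → ℂ} (hg : Continuous g) (hper : Function.Periodic g (2 * Real.pi))
    (hinj : ∀ s t, g s = g t → |s - t| < 2 * Real.pi → s = t) {t0 t1 c : ℝ}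
    (h0 : (g t0).im < c) (h1 : c < (g t1).im) :
    ∃ (a : ℝ → ℂ) (α β : ℝ), t0 ∈ Icc α β ∧ (∀ t ∈ Icc α β, (g t).im ≤ c) ∧
      Continuous a ∧ (∀ t, t ≤ 0 → a t = a 0) ∧ (∀ t, 1 ≤ t → a t = a 1) ∧
      InjOn a (Icc 0 1) ∧ (a 0).im = c ∧ (a 1).im = c ∧ (∀ t ∈ Ioo (0 : ℝ) 1, (a t).im < c) ∧
      (a 0).re < (a 1).re ∧ (∀ t, ∃ x ∈ Icc α β, a t = g x) ∧
      ∃ t ∈ Icc (0 : ℝ) 1, a t = g t0 := by
  have hpi := Real.pi_pos
  obtain ⟨T1, hT1, hT1'⟩ := hper.exists_mem_Ico (by positivity) t1 t0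
  rw [hT1'] at h1
  have hT0 : g (T1 - 2 * Real.pi) = g T1 := by
    have := hper (T1 - 2 * Real.pi)
    rw [sub_add_cancel] at this
    exact this.symm
  have him : Continuous (fun t => (g t).im) := by fun_prop
  have hlt : t0 < T1 := by
    rcases lt_or_eq_of_le hT1.1 with h | h
    · exact h
    · rw [← h] at h1
      linarith
  -- the left end
  have hne1 : (Icc (T1 - 2 * Real.pi) t0 ∩ {t | (g t).im = c}).Nonempty := by
    obtain ⟨t, ht, ht'⟩ := intermediate_value_Icc' (f := fun t => (g t).im)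
      (show T1 - 2 * Real.pi ≤ t0 by linarith [hT1.2]) him.continuousOn
      (show c ∈ Icc (g t0).im (g (T1 - 2 * Real.pi)).im by rw [hT0]; exact ⟨h0.le, h1.le⟩)
    exact ⟨t, ht, ht'⟩
  have hcl : IsClosed {t : ℝ | (g t).im = c} := isClosed_eq him continuous_const
  obtain ⟨α, ⟨hα1, hα2⟩, hα3⟩ := (isCompact_Icc.inter_right hcl).exists_isGreatest hne1
  -- the right end
  have hne2 : (Icc t0 T1 ∩ {t | (g t).im = c}).Nonempty := by
    obtain ⟨t, ht, ht'⟩ := intermediate_value_Icc (f := fun t => (g t).im)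
      hlt.le him.continuousOn (show c ∈ Icc (g t0).im (g T1).im from ⟨h0.le, h1.le⟩)
    exact ⟨t, ht, ht'⟩
  obtain ⟨β, ⟨hβ1, hβ2⟩, hβ3⟩ := (isCompact_Icc.inter_right hcl).exists_isLeast hne2
  change (g α).im = c at hα2
  change (g β).im = c at hβ2
  have hα4 : T1 - 2 * Real.pi < α := by
    rcases lt_or_eq_of_le hα1.1 with h | h
    · exact h
    · rw [← h, hT0] at hα2
      linarith
  have hα5 : α < t0 := by
    rcases lt_or_eq_of_le hα1.2 with h | h
    · exact h
    · rw [h] at hα2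
      linarith
  have hβ4 : β < T1 := by
    rcases lt_or_eq_of_le hβ1.2 with h | h
    · exact h
    · rw [h] at hβ2
      linarith
  have hβ5 : t0 < β := by
    rcases lt_or_eq_of_le hβ1.1 with h | h
    · exact h
    · rw [← h] at hβ2
      linarith
  have hin : ∀ t ∈ Ioo α β, (g t).im < c := by
    intro t ht
    by_contra hc
    push Not at hc
    rcases le_total t t0 with h | h
    · obtain ⟨x, hx, hx'⟩ := intermediate_value_Icc' (f := fun t => (g t).im) h him.continuousOn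
        (show c ∈ Icc (g t0).im (g t).im from ⟨h0.le, hc⟩)
      have := hα3 ⟨⟨by linarith [hx.1, ht.1], hx.2⟩, hx'⟩
      linarith [hx.1, ht.1]
    · obtain ⟨x, hx, hx'⟩ := intermediate_value_Icc (f := fun t => (g t).im) h him.continuousOn
        (show c ∈ Icc (g t0).im (g t).im from ⟨h0.le, hc⟩)
      have := hβ3 ⟨⟨hx.1, by linarith [hx.2, ht.2]⟩, hx'⟩
      linarith [hx.2, ht.2]
  have hle : ∀ t ∈ Icc α β, (g t).im ≤ c := by
    intro t ht
    rcases lt_or_eq_of_le ht.1 with h | h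
    · rcases lt_or_eq_of_le ht.2 with h' | h'
      · exact (hin t ⟨h, h'⟩).le
      · rw [h', hβ2]
    · rw [← h, hα2]
  have hαβ : α < β := by linarith
  have hI : InjOn g (Icc α β) := by
    intro s hs t ht h
    refine hinj s t h ?_
    rw [abs_lt]
    constructor
    · linarith [hs.1, ht.2]
    · linarith [hs.2, ht.1]
  have hne : (g α).re ≠ (g β).re := by
    intro h
    have : g α = g β := Complex.ext h (hα2.trans hβ2.symm)
    have := hI ⟨le_rfl, hαβ.le⟩ ⟨hαβ.le, le_rfl⟩ this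
    linarith
  have mt0 : t0 ∈ Icc α β := ⟨hα5.le, hβ5.le⟩
  rcases lt_or_gt_of_ne hne with hlt' | hlt'
  · obtain ⟨a, a1, a2, a3, a4, a5, a6, a7, a8, a9, a10⟩ := param hg hαβ hI hα2 hβ2 hin hlt'
    exact ⟨a, α, β, mt0, hle, a1, a2, a3, a4, a5, a6, a7, a8, a9, a10 t0 mt0⟩
  · obtain ⟨a, a1, a2, a3, a4, a5, a6, a7, a8, a9, a10⟩ := param (g := fun t => g (-t))
      (α := -β) (β := -α) (c := c) (by fun_prop) (by linarith)
      (fun s hs t ht h => by
        have ms : -s ∈ Icc α β := ⟨by linarith [hs.2], by linarith [hs.1]⟩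
        have mt : -t ∈ Icc α β := ⟨by linarith [ht.2], by linarith [ht.1]⟩
        have := hI ms mt h
        linarith)
      (by simp only [neg_neg]; exact hβ2) (by simp only [neg_neg]; exact hα2)
      (fun t ht => hin (-t) ⟨by linarith [ht.2], by linarith [ht.1]⟩)
      (by simp only [neg_neg]; exact hlt')
    refine ⟨a, α, β, mt0, hle, a1, a2, a3, a4, a5, a6, a7, a8, fun t => ?_, ?_⟩
    · obtain ⟨x, hx, hx'⟩ := a9 t
      exact ⟨-x, ⟨by linarith [hx.2], by linarith [hx.1]⟩, hx'⟩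
    · obtain ⟨t, ht, ht'⟩ := a10 (-t0) ⟨by linarith [mt0.2], by linarith [mt0.1]⟩
      simp only [neg_neg] at ht'
      exact ⟨t, ht, ht'⟩

/-- The general statement. -/
theorem caps {γ : Circle → ℂ} (hγ : Continuous γ) (hγi : Function.Injective γ) {u p q : ℂ}
    (hp : p ∈ range γ) (hq : q ∈ range γ) {c₁ c₂ W : ℝ} (hc : c₁ < c₂) (hpc : (u * p).im < c₁)
    (hqc : c₂ < (u * q).im)
    (hW : ∀ z ∈ connectedComponentIn {z | z ∈ range γ ∧ (u * z).im ≤ c₁} p ∪
        connectedComponentIn {z | z ∈ range γ ∧ c₂ ≤ (u * z).im} q,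
      ∀ w ∈ connectedComponentIn {z | z ∈ range γ ∧ (u * z).im ≤ c₁} p ∪
        connectedComponentIn {z | z ∈ range γ ∧ c₂ ≤ (u * z).im} q, |(u * (z - w)).re| ≤ W)
    (h1 : 2 * W ^ 2 < (c₂ - c₁) * (c₁ - (u * p).im))
    (h2 : 2 * W ^ 2 < (c₂ - c₁) * ((u * q).im - c₂)) :
    ∃ R : ℝ, 0 < R ∧ ∀ r : ℝ, R ≤ r → ∃ a v : ℂ, v ≠ 0 ∧ a ∈ range γ ∧ a + v ∈ range γ ∧
      a + v + Complex.I * (r : ℂ) * v ∈ range γ ∧ a + Complex.I * (r : ℂ) * v ∈ range γ := by
  have hpi := Real.pi_pos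
  have hu : u ≠ 0 := by
    rintro rfl
    rw [zero_mul, Complex.zero_im] at hpc hqc
    linarith
  set K1 := connectedComponentIn {z | z ∈ range γ ∧ (u * z).im ≤ c₁} p with hK1
  set K2 := connectedComponentIn {z | z ∈ range γ ∧ c₂ ≤ (u * z).im} q with hK2
  obtain ⟨cp, rfl⟩ := hp
  obtain ⟨cq, rfl⟩ := hq
  obtain ⟨t0, rfl⟩ := Circle.exp_surjective cp
  obtain ⟨t1, rfl⟩ := Circle.exp_surjective cq
  set f : ℝ → ℂ := fun t => γ (Circle.exp t) with hf
  have hfc : Continuous f := hγ.comp Circle.exp.continuous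
  have hfp : Function.Periodic f (2 * Real.pi) := fun t => by
    simp only [hf]
    rw [Circle.periodic_exp t]
  have hfi : ∀ s t, f s = f t → |s - t| < 2 * Real.pi → s = t := by
    intro s t h hst
    obtain ⟨m, hm⟩ := Circle.exp_eq_exp.1 (hγi h)
    have e : s - t = m * (2 * Real.pi) := by linarith
    rw [e, abs_mul, abs_of_pos (by linarith : (0 : ℝ) < 2 * Real.pi)] at hst
    have h3 : |(m : ℝ)| < 1 := by
      by_contra hc
      push Not at hc
      have := mul_le_mul_of_nonneg_right hc (by linarith : (0 : ℝ) ≤ 2 * Real.pi)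
      linarith
    have h4 : |m| < 1 := by exact_mod_cast h3
    rw [Int.abs_lt_one_iff.1 h4] at e
    push_cast at e
    linarith
  -- the two caps
  obtain ⟨a, α, β, mt0, hle, a1, a2, a3, a4, a5, a6, a7, a8, a9, sp, hsp, hsp'⟩ :=
    extract (g := fun t => u * f t) (by fun_prop)
      (fun t => by simp only [hfp t]) (fun s t h hst => hfi s t (mul_left_cancel₀ hu h) hst)
      (t0 := t0) (t1 := t1) (c := c₁) hpc (by linarith)
  obtain ⟨b, α', β', mt1, hle', b1, b2, b3, b4, b5, b6, b7, b8, b9, sq, hsq, hsq'⟩ :=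
    extract (g := fun t => (starRingEnd ℂ) (u * f t)) (by
        have := Complex.continuous_conj
        fun_prop)
      (fun t => by simp only [hfp t])
      (fun s t h hst => hfi s t (mul_left_cancel₀ hu ((starRingEnd ℂ).injective h)) hst)
      (t0 := t1) (t1 := t0) (c := -c₂) (by rw [Complex.conj_im]; linarith)
      (by rw [Complex.conj_im]; linarith)
  -- they lie in the components
  have hA : ∀ t, ∃ z ∈ K1, z ∈ range γ ∧ a t = u * z := by
    intro t
    obtain ⟨x, hx, hx'⟩ := a9 t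
    have hsub : f '' Icc α β ⊆ K1 := by
      refine IsPreconnected.subset_connectedComponentIn (isPreconnected_Icc.image f hfc.continuousOn)
        ⟨t0, mt0, rfl⟩ ?_
      rintro _ ⟨y, hy, rfl⟩
      exact ⟨⟨_, rfl⟩, hle y hy⟩
    exact ⟨f x, hsub ⟨x, hx, rfl⟩, ⟨_, rfl⟩, hx'⟩
  have hB : ∀ t, ∃ z ∈ K2, z ∈ range γ ∧ b t = (starRingEnd ℂ) (u * z) := by
    intro t
    obtain ⟨x, hx, hx'⟩ := b9 t
    have hsub : f '' Icc α' β' ⊆ K2 := by
      refine IsPreconnected.subset_connectedComponentIn (isPreconnected_Icc.image f hfc.continuousOn)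
        ⟨t1, mt1, rfl⟩ ?_
      rintro _ ⟨y, hy, rfl⟩
      refine ⟨⟨_, rfl⟩, ?_⟩
      have := hle' y hy
      rw [Complex.conj_im] at this
      linarith
    exact ⟨f x, hsub ⟨x, hx, rfl⟩, ⟨_, rfl⟩, hx'⟩
  have oAA : ∀ s t, (a s).re - (a t).re ≤ W := by
    intro s t
    obtain ⟨z, hz, -, ez⟩ := hA s
    obtain ⟨w, hw, -, ew⟩ := hA t
    have := (abs_le.1 (hW z (Or.inl hz) w (Or.inl hw))).2
    rw [mul_sub, Complex.sub_re] at this
    rw [ez, ew]
    exact this
  have oBB : ∀ s t, (b s).re - (b t).re ≤ W := by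
    intro s t
    obtain ⟨z, hz, -, ez⟩ := hB s
    obtain ⟨w, hw, -, ew⟩ := hB t
    have := (abs_le.1 (hW z (Or.inr hz) w (Or.inr hw))).2
    rw [mul_sub, Complex.sub_re] at this
    rw [ez, ew, Complex.conj_re, Complex.conj_re]
    exact this
  have oAB : ∀ s t, |(b t).re - (a s).re| ≤ W := by
    intro s t
    obtain ⟨z, hz, -, ez⟩ := hA s
    obtain ⟨w, hw, -, ew⟩ := hB t
    have := hW w (Or.inr hw) z (Or.inl hz)
    rw [mul_sub, Complex.sub_re] at this
    rw [ez, ew, Complex.conj_re]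
    exact this
  have hWpos : 0 < W := by linarith [oAA 1 0]
  -- the slope
  have hd : 0 < c₂ - c₁ := by linarith
  set m := min (c₁ - (u * γ (Circle.exp t0)).im) ((u * γ (Circle.exp t1)).im - c₂) with hm
  have hmm : 2 * W ^ 2 < (c₂ - c₁) * m := by
    rcases min_cases (c₁ - (u * γ (Circle.exp t0)).im) ((u * γ (Circle.exp t1)).im - c₂) with h | h
    · rw [hm, h.1]; exact h1
    · rw [hm, h.1]; exact h2
  have hκ : W / (c₂ - c₁) < m / (2 * W) := by
    rw [div_lt_div_iff₀ hd (by linarith)]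
    linarith
  obtain ⟨κ, hκ1, hκ2⟩ := exists_between hκ
  have hκp : 0 < κ := lt_of_le_of_lt (by positivity) hκ1
  rw [div_lt_iff₀ hd] at hκ1
  rw [lt_div_iff₀ (by linarith)] at hκ2
  have m0 : (0 : ℝ) ∈ Icc (0 : ℝ) 1 := ⟨le_rfl, zero_le_one⟩
  -- lowest points
  obtain ⟨sA, hsA, hlowA⟩ := isCompact_Icc.exists_isMinOn (s := Icc (0 : ℝ) 1)
    (f := fun t => (a t).im) ⟨0, m0⟩ (by fun_prop)
  have hmA : (a sA).im ≤ (u * γ (Circle.exp t0)).im := by
    have := hlowA hsp
    simp only [mem_ofPred_eq] at this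
    rw [hsp'] at this
    exact this
  obtain ⟨sB, hsB, hlowB⟩ := isCompact_Icc.exists_isMinOn (s := Icc (0 : ℝ) 1)
    (f := fun t => (b t).im) ⟨0, m0⟩ (by fun_prop)
  have hmB : (b sB).im ≤ -(u * γ (Circle.exp t1)).im := by
    have := hlowB hsq
    simp only [mem_ofPred_eq] at this
    rw [hsq', Complex.conj_im] at this
    exact this
  have hm1 : m ≤ c₁ - (u * γ (Circle.exp t0)).im := min_le_left _ _
  have hm2 : m ≤ (u * γ (Circle.exp t1)).im - c₂ := min_le_right _ _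
  have A : Arc a c₁ κ sA := by
    refine ⟨a1, a2, a3, a4, a5, a6, a7, a8, ?_, fun t ht => hlowA ht, hκp, fun s _ t _ => ?_⟩
    · constructor
      · rcases lt_or_eq_of_le hsA.1 with h | h
        · exact h
        · rw [← h, a5] at hmA
          linarith
      · rcases lt_or_eq_of_le hsA.2 with h | h
        · exact h
        · rw [h, a6] at hmA
          linarith
    · have := mul_le_mul_of_nonneg_left (oAA s t) (by linarith : (0 : ℝ) ≤ 2 * κ)
      nlinarith
  have B : Arc b (-c₂) κ sB := by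
    refine ⟨b1, b2, b3, b4, b5, b6, b7, b8, ?_, fun t ht => hlowB ht, hκp, fun s _ t _ => ?_⟩
    · constructor
      · rcases lt_or_eq_of_le hsB.1 with h | h
        · exact h
        · rw [← h, b5] at hmB
          linarith
      · rcases lt_or_eq_of_le hsB.2 with h | h
        · exact h
        · rw [h, b6] at hmB
          linarith
    · have := mul_le_mul_of_nonneg_left (oBB s t) (by linarith : (0 : ℝ) ≤ 2 * κ)
      nlinarith
  obtain ⟨R, hR, hr⟩ := rect A B (by linarith) (fun s _ t _ => oAB s t) (by linarith)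
  refine ⟨R, hR, fun r hrR => ?_⟩
  obtain ⟨P, v, hv, ⟨s1, -, e1⟩, ⟨s2, -, e2⟩, ⟨s3, -, e3⟩, ⟨s4, -, e4⟩⟩ := hr r hrR
  obtain ⟨z1, -, hz1, f1⟩ := hA s1
  obtain ⟨z2, -, hz2, f2⟩ := hA s2
  obtain ⟨z3, -, hz3, f3⟩ := hB s3
  obtain ⟨z4, -, hz4, f4⟩ := hB s4
  have k1 : P = u * z1 := by rw [← e1, f1]
  have k2 : P + v = u * z2 := by rw [← e2, f2]
  have k3 : P + Complex.I * (r : ℂ) * v = u * z3 := (starRingEnd ℂ).injective (by rw [← e3, f3])
  have k4 : P + v + Complex.I * (r : ℂ) * v = u * z4 :=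
    (starRingEnd ℂ).injective (by rw [← e4, f4])
  have j : ∀ w : ℂ, u * (w / u) = w := fun w => mul_div_cancel₀ w hu
  refine ⟨z1, v / u, div_ne_zero hv hu, hz1, ?_, ?_, ?_⟩
  · have : z1 + v / u = z2 := mul_left_cancel₀ hu (by rw [mul_add, j, ← k1, k2])
    rw [this]
    exact hz2
  · have : z1 + v / u + Complex.I * (r : ℂ) * (v / u) = z4 := mul_left_cancel₀ hu (by
      have e : u * (z1 + v / u + Complex.I * (r : ℂ) * (v / u)) = u * z1 + u * (v / u) +
        Complex.I * (r : ℂ) * (u * (v / u)) := by ring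
      rw [e, j, ← k1, k4])
    rw [this]
    exact hz4
  · have : z1 + Complex.I * (r : ℂ) * (v / u) = z3 := mul_left_cancel₀ hu (by
      have e : u * (z1 + Complex.I * (r : ℂ) * (v / u)) = u * z1 +
        Complex.I * (r : ℂ) * (u * (v / u)) := by ring
      rw [e, j, ← k1, k3])
    rw [this]
    exact hz3

end Pool.MP_7ec17a_gt.M
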