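import Pool.Agent.Work.MP_7ec17a_gt_M.ArcLemma

/-!
# Two opposite narrow caps inscribe all elongated rectangles
-/

set_option autoImplicit false

open Set

namespace Pool.MP_7ec17a_gt.M

/-- Two caps facing each other (the second one is given by its mirror image). -/
theorem rect {a b : ℝ → ℂ} {L M κ sA sB W : ℝ} (A : Arc a L κ sA) (B : Arc b M κ sB)
    (hgap : 0 < -M - L)
    (hW : ∀ s ∈ Icc (0 : ℝ) 1, ∀ t ∈ Icc (0 : ℝ) 1, |(b t).re - (a s).re| ≤ W)
    (hWκ : W < κ * (-M - L)) :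
    ∃ R : ℝ, 0 < R ∧ ∀ r : ℝ, R ≤ r → ∃ p v : ℂ, v ≠ 0 ∧ p ∈ a '' Icc 0 1 ∧
      p + v ∈ a '' Icc 0 1 ∧
      (starRingEnd ℂ) (p + Complex.I * (r : ℂ) * v) ∈ b '' Icc 0 1 ∧
      (starRingEnd ℂ) (p + v + Complex.I * (r : ℂ) * v) ∈ b '' Icc 0 1 := by
  have hac := A.cont
  have hbc := B.cont
  have hκ := A.κpos
  obtain ⟨σ1, hσ1, σ2, hσ2, h0, hh0, F1, hF1, hA⟩ := A.main
  obtain ⟨τ1, hτ1, τ2, hτ2, h1, hh1, F2, hF2, hB⟩ := B.main
  obtain ⟨Ca, hCa⟩ := (isCompact_Icc (a := (0 : ℝ)) (b := 1)).exists_bound_of_continuousOn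
    hac.continuousOn
  obtain ⟨Cb, hCb⟩ := (isCompact_Icc (a := (0 : ℝ)) (b := 1)).exists_bound_of_continuousOn
    hbc.continuousOn
  have m0 : (0 : ℝ) ∈ Icc (0 : ℝ) 1 := ⟨le_rfl, zero_le_one⟩
  have hCa0 : 0 ≤ Ca := (norm_nonneg _).trans (hCa 0 m0)
  have hCb0 : 0 ≤ Cb := (norm_nonneg _).trans (hCb 0 m0)
  have hmin : 0 < min h0 h1 := lt_min hh0 hh1
  refine ⟨(Ca + Cb + 1) / min h0 h1, by positivity, fun r hr => ?_⟩
  have hR : 0 < (Ca + Cb + 1) / min h0 h1 := by positivity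
  have hr0 : 0 < r := lt_of_lt_of_le hR hr
  have hrC : (r : ℂ) ≠ 0 := Complex.ofReal_ne_zero.2 hr0.ne'
  have hsmall : (Ca + Cb) / r < min h0 h1 := by
    rw [div_lt_iff₀ hr0]
    rw [div_le_iff₀ hmin] at hr
    linarith
  -- the displacement
  set V : ℂ → ℂ → ℂ := fun p w => -Complex.I * ((starRingEnd ℂ) w - p) * ((1 / r : ℝ) : ℂ) with hV
  have hVre : ∀ p w : ℂ, (V p w).re = (-w.im - p.im) * (1 / r) := fun p w => by
    simp only [hV, Complex.mul_re, Complex.mul_im, Complex.neg_re, Complex.neg_im, Complex.I_re,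
      Complex.I_im, Complex.sub_re, Complex.sub_im, Complex.conj_re, Complex.conj_im,
      Complex.ofReal_re, Complex.ofReal_im]
    ring
  have hVim : ∀ p w : ℂ, (V p w).im = -((w.re - p.re) * (1 / r)) := fun p w => by
    simp only [hV, Complex.mul_re, Complex.mul_im, Complex.neg_re, Complex.neg_im, Complex.I_re,
      Complex.I_im, Complex.sub_re, Complex.sub_im, Complex.conj_re, Complex.conj_im,
      Complex.ofReal_re, Complex.ofReal_im]
    ring
  have hVI : ∀ p w : ℂ, p + Complex.I * (r : ℂ) * V p w = (starRingEnd ℂ) w := fun p w => by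
    simp only [hV]
    have e : Complex.I * (r : ℂ) * (-Complex.I * ((starRingEnd ℂ) w - p) * ((1 / r : ℝ) : ℂ)) =
        (-(Complex.I * Complex.I)) * ((r : ℂ) * ((1 / r : ℝ) : ℂ)) * ((starRingEnd ℂ) w - p) := by
      ring
    rw [e, Complex.I_mul_I]
    push_cast
    rw [mul_one_div_cancel hrC]
    ring
  have h1r : 0 < 1 / r := by positivity
  have imA : ∀ s ∈ Icc (0 : ℝ) 1, (a s).im ≤ L := fun s hs => A.im_le hs
  have imB : ∀ s ∈ Icc (0 : ℝ) 1, (b s).im ≤ M := fun s hs => B.im_le hs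
  have hVpos : ∀ s ∈ Icc (0 : ℝ) 1, ∀ t ∈ Icc (0 : ℝ) 1,
      (-M - L) * (1 / r) ≤ (V (a s) (b t)).re := fun s hs t ht => by
    rw [hVre]
    exact mul_le_mul_of_nonneg_right (by linarith [imA s hs, imB t ht]) h1r.le
  have hVcone : ∀ s ∈ Icc (0 : ℝ) 1, ∀ t ∈ Icc (0 : ℝ) 1,
      |(V (a s) (b t)).im| < κ * (V (a s) (b t)).re := fun s hs t ht => by
    rw [hVim, abs_neg, abs_mul, abs_of_pos h1r]
    have h2 := mul_le_mul_of_nonneg_right (hW s hs t ht) h1r.le
    have h3 := mul_lt_mul_of_pos_right hWκ h1r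
    have h4 := mul_le_mul_of_nonneg_left (hVpos s hs t ht) hκ.le
    calc |(b t).re - (a s).re| * (1 / r) ≤ W * (1 / r) := h2
      _ < κ * (-M - L) * (1 / r) := h3
      _ = κ * ((-M - L) * (1 / r)) := by ring
      _ ≤ κ * (V (a s) (b t)).re := h4
  have hVn : ∀ s ∈ Icc (0 : ℝ) 1, ∀ t ∈ Icc (0 : ℝ) 1, ‖V (a s) (b t)‖ < min h0 h1 :=
    fun s hs t ht => by
      simp only [hV]
      rw [norm_mul, norm_mul, norm_neg, Complex.norm_I, one_mul, Complex.norm_real,
        Real.norm_eq_abs, abs_of_pos h1r]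
      have h2 : ‖(starRingEnd ℂ) (b t) - a s‖ ≤ Ca + Cb := by
        refine (norm_sub_le _ _).trans ?_
        rw [Complex.norm_conj]
        linarith [hCa s hs, hCb t ht]
      have h3 := mul_le_mul_of_nonneg_right h2 h1r.le
      have e : (Ca + Cb) * (1 / r) = (Ca + Cb) / r := by ring
      linarith
  have hVc : Continuous (fun z : ℂ × ℂ => V z.1 z.2) := by
    simp only [hV]
    have := Complex.continuous_conj
    fun_prop
  -- the parameters
  have hlin : ∀ p ∈ Ioo (0 : ℝ) 1, ∀ q ∈ Ioo (0 : ℝ) 1, ∀ x ∈ Icc (0 : ℝ) 1,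
      p + x * (q - p) ∈ Icc (0 : ℝ) 1 := by
    intro p hp q hq x hx
    have e : p + x * (q - p) = (1 - x) * p + x * q := by ring
    rw [e]
    have h2 : 0 ≤ 1 - x := by linarith [hx.2]
    constructor
    · have := mul_nonneg h2 hp.1.le
      have := mul_nonneg hx.1 hq.1.le
      linarith
    · have := mul_le_mul_of_nonneg_left hp.2.le h2
      have := mul_le_mul_of_nonneg_left hq.2.le hx.1
      linarith
  set s : ℝ → ℝ := fun x => σ1 + x * (σ2 - σ1) with hs
  set t : ℝ → ℝ := fun y => τ1 + y * (τ2 - τ1) with ht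
  have hsm : ∀ x ∈ Icc (0 : ℝ) 1, s x ∈ Icc (0 : ℝ) 1 := fun x hx => hlin σ1 hσ1 σ2 hσ2 x hx
  have htm : ∀ x ∈ Icc (0 : ℝ) 1, t x ∈ Icc (0 : ℝ) 1 := fun x hx => hlin τ1 hτ1 τ2 hτ2 x hx
  have hsc : Continuous s := by fun_prop
  have htc : Continuous t := by fun_prop
  have s0 : s 0 = σ1 := by simp [hs]
  have s1 : s 1 = σ2 := by simp [hs]
  have t0 : t 0 = τ1 := by simp [ht]
  have t1 : t 1 = τ2 := by simp [ht]
  have m1 : (1 : ℝ) ∈ Icc (0 : ℝ) 1 := ⟨zero_le_one, le_rfl⟩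
  have hVc2 : Continuous (fun z : ℝ × ℝ => V (a (s z.1)) (b (t z.2))) := by
    have h2 : Continuous (fun z : ℝ × ℝ => (a (s z.1), b (t z.2))) := by fun_prop
    exact hVc.comp h2
  have hconj : ∀ v : ℂ, |v.im| < κ * v.re → |((starRingEnd ℂ) v).im| < κ * ((starRingEnd ℂ) v).re :=
    fun v hv => by rw [Complex.conj_im, Complex.conj_re, abs_neg]; exact hv
  have good1 : ∀ x ∈ Icc (0 : ℝ) 1, ∀ y ∈ Icc (0 : ℝ) 1, _ := fun x hx y hy =>
    hA (V (a (s x)) (b (t y))) (hVcone _ (hsm x hx) _ (htm y hy))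
      (lt_of_lt_of_le (hVn _ (hsm x hx) _ (htm y hy)) (min_le_left _ _))
  have good2 : ∀ x ∈ Icc (0 : ℝ) 1, ∀ y ∈ Icc (0 : ℝ) 1, _ := fun x hx y hy =>
    hB ((starRingEnd ℂ) (V (a (s x)) (b (t y)))) (hconj _ (hVcone _ (hsm x hx) _ (htm y hy)))
      (by
        rw [Complex.norm_conj]
        exact lt_of_lt_of_le (hVn _ (hsm x hx) _ (htm y hy)) (min_le_right _ _))
  obtain ⟨x, hx, y, hy, e1, e2⟩ := miranda
    (F := fun z => F1 (a (s z.1) + V (a (s z.1)) (b (t z.2))))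
    (G := fun z => F2 (b (t z.2) + (starRingEnd ℂ) (V (a (s z.1)) (b (t z.2)))))
    (Continuous.continuousOn (by
      have h2 : Continuous (fun z : ℝ × ℝ => a (s z.1)) := by fun_prop
      exact hF1.comp (h2.add hVc2)))
    (Continuous.continuousOn (by
      have h2 : Continuous (fun z : ℝ × ℝ => b (t z.2)) := by fun_prop
      exact hF2.comp (h2.add (Complex.continuous_conj.comp hVc2))))
    (fun y hy => by
      have h2 := (good1 0 m0 y hy).1
      rw [s0] at h2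
      simp only [s0]
      exact h2)
    (fun y hy => by
      have h2 := (good1 1 m1 y hy).2.1
      rw [s1] at h2
      simp only [s1]
      exact h2)
    (fun x hx => by
      have h2 := (good2 x hx 0 m0).1
      rw [t0] at h2
      simp only [t0]
      exact h2)
    (fun x hx => by
      have h2 := (good2 x hx 1 m1).2.1
      rw [t1] at h2
      simp only [t1]
      exact h2)
  have g1 := (good1 x hx y hy).2.2 x hx e1
  have g2 := (good2 x hx y hy).2.2 y hy e2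
  refine ⟨a (s x), V (a (s x)) (b (t y)), ?_, mem_image_of_mem a (hsm x hx), g1, ?_, ?_⟩
  · intro h
    have h2 := hVpos _ (hsm x hx) _ (htm y hy)
    rw [h, Complex.zero_re] at h2
    have := mul_pos hgap h1r
    linarith
  · rw [hVI, Complex.conj_conj]
    exact mem_image_of_mem b (htm y hy)
  · have e : a (s x) + V (a (s x)) (b (t y)) + Complex.I * (r : ℂ) * V (a (s x)) (b (t y)) =
        (a (s x) + Complex.I * (r : ℂ) * V (a (s x)) (b (t y))) + V (a (s x)) (b (t y)) := by ring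
    rw [e, hVI, map_add, Complex.conj_conj]
    exact g2

end Pool.MP_7ec17a_gt.M
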