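import Pool.Agent.Work.MP_7ec17a_gt_M.Wind

/-!
# The Poincare-Miranda theorem on the unit square
-/

set_option autoImplicit false

open Set

namespace Pool.MP_7ec17a_gt.M

open Pool.MP_7ec17a_gt.T

/-- A continuous angle with positive sine stays in `(0, π)`. -/
lemma stay_pos {X : Type*} [TopologicalSpace X] {S : Set X} (hS : IsPreconnected S) {θ : X → ℝ}
    (hθ : ContinuousOn θ S) (hs : ∀ z ∈ S, 0 < Real.sin (θ z)) {z0 : X} (hz0 : z0 ∈ S)
    (h0 : 0 < θ z0 ∧ θ z0 < Real.pi) : ∀ z ∈ S, 0 < θ z ∧ θ z < Real.pi := by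
  refine stay hS hθ (fun z hz => ⟨fun h => ?_, fun h => ?_⟩) hz0 h0
  · have := hs z hz
    rw [h, Real.sin_zero] at this
    exact lt_irrefl _ this
  · have := hs z hz
    rw [h, Real.sin_pi] at this
    exact lt_irrefl _ this

/-- A continuous angle with `0 < sin (θ - φ)` stays in `(φ, φ + π)`. -/
lemma stay_shift {X : Type*} [TopologicalSpace X] {S : Set X} (hS : IsPreconnected S) {θ : X → ℝ}
    (hθ : ContinuousOn θ S) {φ : ℝ} (hs : ∀ z ∈ S, 0 < Real.sin (θ z - φ)) {z0 : X} (hz0 : z0 ∈ S)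
    (h0 : φ < θ z0 ∧ θ z0 < φ + Real.pi) : ∀ z ∈ S, φ < θ z ∧ θ z < φ + Real.pi := by
  have h := stay_pos hS (θ := fun z => θ z - φ) (hθ.sub continuousOn_const) hs hz0
    ⟨by linarith [h0.1], by linarith [h0.2]⟩
  intro z hz
  have := h z hz
  constructor
  · linarith [this.1]
  · linarith [this.2]

/-- An angle with positive sine differs by a multiple of `2 π` from one in `(0, π)`. -/
lemma exists_shift {φ : ℝ} (h : 0 < Real.sin φ) :
    ∃ n : ℤ, 0 < φ + n * (2 * Real.pi) ∧ φ + n * (2 * Real.pi) < Real.pi := by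
  have hpi := Real.pi_pos
  have h2 : (0 : ℝ) < 2 * Real.pi := by linarith
  refine ⟨-toIcoDiv h2 0 φ, ?_⟩
  have h3 := toIcoMod_mem_Ico h2 0 φ
  have h4 : φ + ((-toIcoDiv h2 0 φ : ℤ) : ℝ) * (2 * Real.pi) = toIcoMod h2 0 φ := by
    unfold toIcoMod
    rw [zsmul_eq_mul]
    push_cast
    ring
  have h5 : 0 < Real.sin (φ + ((-toIcoDiv h2 0 φ : ℤ) : ℝ) * (2 * Real.pi)) := by
    rw [Real.sin_add_int_mul_two_pi]
    exact h
  rw [h4] at h5 ⊢
  set ψ := toIcoMod h2 0 φ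
  rw [zero_add] at h3
  constructor
  · rcases lt_or_eq_of_le h3.1 with h6 | h6
    · exact h6
    · rw [← h6, Real.sin_zero] at h5
      exact absurd h5 (lt_irrefl _)
  · by_contra h6
    push Not at h6
    have h7 : Real.sin ψ = - Real.sin (ψ - Real.pi) := by
      rw [Real.sin_sub_pi]; ring
    have h8 : 0 ≤ Real.sin (ψ - Real.pi) :=
      Real.sin_nonneg_of_nonneg_of_le_pi (by linarith) (by linarith [h3.2])
    linarith

/-- The Poincare-Miranda theorem on the unit square. -/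
theorem miranda {F G : ℝ × ℝ → ℝ} (hF : ContinuousOn F (Icc 0 1 ×ˢ Icc 0 1))
    (hG : ContinuousOn G (Icc 0 1 ×ˢ Icc 0 1))
    (hF0 : ∀ y ∈ Icc (0 : ℝ) 1, 0 < F (0, y)) (hF1 : ∀ y ∈ Icc (0 : ℝ) 1, F (1, y) < 0)
    (hG0 : ∀ x ∈ Icc (0 : ℝ) 1, 0 < G (x, 0)) (hG1 : ∀ x ∈ Icc (0 : ℝ) 1, G (x, 1) < 0) :
    ∃ x ∈ Icc (0 : ℝ) 1, ∃ y ∈ Icc (0 : ℝ) 1, F (x, y) = 0 ∧ G (x, y) = 0 := by
  by_contra hcon
  push Not at hcon
  have hpi := Real.pi_pos
  set H : ℝ × ℝ → ℂ := fun z => ⟨F (cl z.1, cl z.2), G (cl z.1, cl z.2)⟩ with hH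
  have hmaps : MapsTo (fun z : ℝ × ℝ => (cl z.1, cl z.2)) univ (Icc (0 : ℝ) 1 ×ˢ Icc (0 : ℝ) 1) :=
    fun z _ => ⟨cl_mem _, cl_mem _⟩
  have hcc : Continuous (fun z : ℝ × ℝ => (cl z.1, cl z.2)) := by
    have := continuous_cl
    fun_prop
  have hFc : Continuous (fun z : ℝ × ℝ => F (cl z.1, cl z.2)) :=
    continuousOn_univ.1 (hF.comp hcc.continuousOn hmaps)
  have hGc : Continuous (fun z : ℝ × ℝ => G (cl z.1, cl z.2)) :=
    continuousOn_univ.1 (hG.comp hcc.continuousOn hmaps)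
  have hHc : Continuous H := by
    have h : H = fun z => ((F (cl z.1, cl z.2) : ℝ) : ℂ) + ((G (cl z.1, cl z.2) : ℝ) : ℂ) *
        Complex.I := by
      funext z
      apply Complex.ext <;> simp [hH]
    rw [h]
    exact (Complex.continuous_ofReal.comp hFc).add
      ((Complex.continuous_ofReal.comp hGc).mul continuous_const)
  have hH0 : ∀ z, H z ≠ 0 := by
    intro z hz
    exact hcon _ (cl_mem z.1) _ (cl_mem z.2) (congrArg Complex.re hz) (congrArg Complex.im hz)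
  obtain ⟨θ', hθ'c, hθ'⟩ := exists_arg' hHc hH0
  have s0 : 0 < Real.sin (θ' (0, 0)) := by
    refine (hθ' (0, 0)).sin_pos ?_
    simp only [hH]
    rw [cl_neg le_rfl]
    exact hG0 0 ⟨le_rfl, zero_le_one⟩
  obtain ⟨n, hn⟩ := exists_shift s0
  set θ : ℝ × ℝ → ℝ := fun z => θ' z + n * (2 * Real.pi) with hθdef
  have hθc : Continuous θ := by fun_prop
  have hθ : ∀ z, Pol (H z) (θ z) := fun z => (hθ' z).shift n
  have hIcc : IsPreconnected (Icc (0 : ℝ) 1) := isPreconnected_Icc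
  have m0 : (0 : ℝ) ∈ Icc (0 : ℝ) 1 := ⟨le_rfl, zero_le_one⟩
  have m1 : (1 : ℝ) ∈ Icc (0 : ℝ) 1 := ⟨zero_le_one, le_rfl⟩
  have c0 : cl 0 = 0 := cl_neg le_rfl
  have c1 : cl 1 = 1 := cl_big le_rfl
  -- the signs of cosine and sine on the four sides
  have cosp : ∀ z, 0 < (H z).re → 0 < Real.cos (θ z) := by
    intro z hz
    rw [(hθ z).1] at hz
    by_contra hc
    push Not at hc
    have := mul_nonpos_of_nonneg_of_nonpos (norm_nonneg (H z)) hc
    linarith
  have cosn : ∀ z, (H z).re < 0 → Real.cos (θ z) < 0 := by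
    intro z hz
    rw [(hθ z).1] at hz
    by_contra hc
    push Not at hc
    have := mul_nonneg (norm_nonneg (H z)) hc
    linarith
  have k1 : ∀ x ∈ Icc (0 : ℝ) 1, 0 < Real.sin (θ (x, 0)) := fun x hx => by
    refine (hθ (x, 0)).sin_pos ?_
    simp only [hH]
    rw [c0, cl_of_mem hx]
    exact hG0 x hx
  have k2 : ∀ y ∈ Icc (0 : ℝ) 1, Real.cos (θ (1, y)) < 0 := fun y hy => by
    refine cosn _ ?_
    simp only [hH]
    rw [c1, cl_of_mem hy]
    exact hF1 y hy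
  have k3 : ∀ x ∈ Icc (0 : ℝ) 1, Real.sin (θ (x, 1)) < 0 := fun x hx => by
    refine (hθ (x, 1)).sin_neg ?_
    simp only [hH]
    rw [c1, cl_of_mem hx]
    exact hG1 x hx
  have k4 : ∀ y ∈ Icc (0 : ℝ) 1, 0 < Real.cos (θ (0, y)) := fun y hy => by
    refine cosp _ ?_
    simp only [hH]
    rw [c0, cl_of_mem hy]
    exact hF0 y hy
  have a1 := stay_pos hIcc (θ := fun x => θ (x, 0)) (by fun_prop) k1 m0 hn
  have a1' := a1 1 m1
  have b1 : Real.pi / 2 < θ (1, 0) := by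
    by_contra hc
    push Not at hc
    have h1 := Real.cos_nonneg_of_neg_pi_div_two_le_of_le (by linarith [a1'.1]) hc
    linarith [k2 0 m0]
  have a2 := stay_shift hIcc (θ := fun y => θ (1, y)) (φ := Real.pi / 2) (by fun_prop)
    (fun y hy => by rw [Real.sin_sub_pi_div_two]; linarith [k2 y hy]) m0
    ⟨b1, by linarith [a1'.2]⟩
  have a2' := a2 1 m1
  have b2 : Real.pi < θ (1, 1) := by
    by_contra hc
    push Not at hc
    have h1 := Real.sin_nonneg_of_nonneg_of_le_pi (by linarith [a2'.1]) hc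
    linarith [k3 1 m1]
  have a3 := stay_shift hIcc (θ := fun x => θ (x, 1)) (φ := Real.pi) (by fun_prop)
    (fun x hx => by rw [Real.sin_sub_pi]; linarith [k3 x hx]) m1
    ⟨b2, by linarith [a2'.2]⟩
  have a3' := a3 0 m0
  have b3 : 3 * Real.pi / 2 < θ (0, 1) := by
    by_contra hc
    push Not at hc
    have h1 : 0 ≤ Real.cos (θ (0, 1) - Real.pi) → False := fun h => by
      rw [Real.cos_sub_pi] at h
      linarith [k4 1 m1]
    exact h1 (Real.cos_nonneg_of_neg_pi_div_two_le_of_le (by linarith [a3'.1]) (by linarith))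
  have a4 := stay_shift hIcc (θ := fun y => θ (0, y)) (φ := 3 * Real.pi / 2) (by fun_prop)
    (fun y hy => by
      have e : Real.sin (θ (0, y) - 3 * Real.pi / 2) = Real.cos (θ (0, y)) := by
        have : θ (0, y) - 3 * Real.pi / 2 = θ (0, y) + Real.pi / 2 - 2 * Real.pi := by ring
        rw [this, Real.sin_sub_two_pi, Real.sin_add_pi_div_two]
      rw [e]
      exact k4 y hy) m1
    ⟨b3, by linarith [a3'.2]⟩
  have a4' := a4 0 m0
  have a0' := hn.2
  simp only [hθdef] at a4' a0'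
  linarith [a4'.1]

end Pool.MP_7ec17a_gt.M
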