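import Pool.Agent.Work.MP_7ec17a_gt_M.Miranda

/-!
# Moving the base point along a path
-/

set_option autoImplicit false

open Set

namespace Pool.MP_7ec17a_gt.M

open Pool.MP_7ec17a_gt.T

/-- The argument of `a t - bs 1` along `[s0, 1]`, obtained by moving the base point from
`bs 0` to `bs 1`. -/
lemma sweep {a bs : ℝ → ℂ} (ha : Continuous a) (hb : Continuous bs) {s0 : ℝ} (hs0 : s0 < 1)
    (hne : ∀ μ ∈ Icc (0 : ℝ) 1, ∀ t ∈ Icc s0 1, a t ≠ bs μ)
    (h0 : ∀ t ∈ Icc s0 1, (a t).im ≤ (bs 0).im)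
    (h1 : (a 1).im = (bs 0).im) (h1' : (bs 0).re < (a 1).re)
    (hlow : ∀ μ ∈ Icc (0 : ℝ) 1, (a s0).im ≤ (bs μ).im)
    (hhigh : ∀ μ ∈ Icc (0 : ℝ) 1, (bs μ).im ≤ (a 1).im)
    (hl1 : (a s0).im < (bs 1).im) (hh1 : (bs 1).im < (a 1).im)
    {ϑ : ℝ → ℝ} (hϑ : ContinuousOn ϑ (Icc s0 1)) (hP : ∀ t ∈ Icc s0 1, Pol (a t - bs 1) (ϑ t))
    (hst : -Real.pi < ϑ s0 ∧ ϑ s0 < 0) : 0 < ϑ 1 ∧ ϑ 1 < Real.pi := by
  have hpi := Real.pi_pos
  have m0 : (0 : ℝ) ∈ Icc (0 : ℝ) 1 := ⟨le_rfl, zero_le_one⟩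
  have m1 : (1 : ℝ) ∈ Icc (0 : ℝ) 1 := ⟨zero_le_one, le_rfl⟩
  set τ : ℝ → ℝ := fun y => s0 + cl y * (1 - s0) with hτ
  have hτc : Continuous τ := by
    have := continuous_cl
    fun_prop
  have hτm : ∀ y, τ y ∈ Icc s0 1 := by
    intro y
    have h := cl_mem y
    have h2 := mul_nonneg h.1 (by linarith : (0 : ℝ) ≤ 1 - s0)
    have h3 := mul_le_mul_of_nonneg_right h.2 (by linarith : (0 : ℝ) ≤ 1 - s0)
    constructor
    · simp only [hτ]; linarith
    · simp only [hτ]; linarith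
  have hτ0 : τ 0 = s0 := by simp only [hτ]; rw [cl_neg le_rfl]; ring
  have hτ1 : τ 1 = 1 := by simp only [hτ]; rw [cl_big le_rfl]; ring
  obtain ⟨θ', hθ'c, hθ'⟩ := exists_arg' (F := fun z : ℝ × ℝ => a (τ z.2) - bs (cl z.1))
    (by
      have := continuous_cl
      fun_prop)
    (fun z => sub_ne_zero.2 (hne _ (cl_mem _) _ (hτm _)))
  have hθ'' : ∀ μ ∈ Icc (0 : ℝ) 1, ∀ y, Pol (a (τ y) - bs μ) (θ' (μ, y)) := fun μ hμ y => by
    have := hθ' (μ, y)
    simp only at this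
    rwa [cl_of_mem hμ] at this
  -- the corner `(0, 1)`
  have q0 : Pol (a 1 - bs 0) (θ' (0, 1)) := by
    have := hθ'' 0 m0 1
    rwa [hτ1] at this
  have hcos : Real.cos (θ' (0, 1)) = 1 := by
    have him : (a 1 - bs 0).im = 0 := by rw [Complex.sub_im, h1, sub_self]
    have hre : 0 < (a 1 - bs 0).re := by rw [Complex.sub_re]; linarith
    have hnorm : ‖a 1 - bs 0‖ = (a 1 - bs 0).re := by
      have e : a 1 - bs 0 = (((a 1 - bs 0).re : ℝ) : ℂ) := by
        apply Complex.ext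
        · simp
        · rw [him]; simp
      conv_lhs => rw [e]
      rw [Complex.norm_real, Real.norm_eq_abs, abs_of_pos hre]
    have := q0.1
    rw [hnorm] at this
    have h2 : (a 1 - bs 0).re * (Real.cos (θ' (0, 1)) - 1) = 0 := by linarith
    rcases mul_eq_zero.1 h2 with h3 | h3
    · exact absurd h3 hre.ne'
    · linarith
  obtain ⟨n, hn⟩ := (Real.cos_eq_one_iff _).1 hcos
  set θ : ℝ × ℝ → ℝ := fun z => θ' z + ((-n : ℤ) : ℝ) * (2 * Real.pi) with hθdef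
  have hθc : Continuous θ := by fun_prop
  have hθ : ∀ μ ∈ Icc (0 : ℝ) 1, ∀ y, Pol (a (τ y) - bs μ) (θ (μ, y)) :=
    fun μ hμ y => (hθ'' μ hμ y).shift (-n)
  have hne' : ∀ μ ∈ Icc (0 : ℝ) 1, ∀ y, a (τ y) - bs μ ≠ 0 :=
    fun μ hμ y => sub_ne_zero.2 (hne μ hμ _ (hτm y))
  have e01 : θ (0, 1) = 0 := by
    simp only [hθdef]
    rw [← hn]
    push_cast
    ring
  have hIcc : IsPreconnected (Icc (0 : ℝ) 1) := isPreconnected_Icc
  have r0 := stay_np hIcc (θ := fun y => θ (0, y)) (by fun_prop) (fun y _ =>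
    (hθ 0 m0 y).sin_nonpos (hne' 0 m0 y) (by
      rw [Complex.sub_im]; linarith [h0 _ (hτm y)])) m1 (by
      rw [e01]; exact ⟨by linarith, le_rfl⟩) 0 m0
  have c0 := stay_np hIcc (θ := fun x => θ (x, 0)) (by fun_prop) (fun x hx =>
    (hθ x hx 0).sin_nonpos (hne' x hx 0) (by
      rw [Complex.sub_im, hτ0]; linarith [hlow x hx])) m0 r0 1 m1
  have c1 := stay_nn hIcc (θ := fun x => θ (x, 1)) (by fun_prop) (fun x hx =>
    (hθ x hx 1).sin_nonneg (hne' x hx 1) (by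
      rw [Complex.sub_im, hτ1]; linarith [hhigh x hx])) m0 (by
      rw [e01]; exact ⟨le_rfl, by linarith⟩) 1 m1
  have s0' : Real.sin (θ (1, 0)) < 0 := (hθ 1 m1 0).sin_neg (by
    rw [Complex.sub_im, hτ0]; linarith)
  have s1' : 0 < Real.sin (θ (1, 1)) := (hθ 1 m1 1).sin_pos (by
    rw [Complex.sub_im, hτ1]; linarith)
  have c0' : -Real.pi < θ (1, 0) ∧ θ (1, 0) < 0 := by
    constructor
    · rcases lt_or_eq_of_le c0.1 with h | h
      · exact h
      · rw [← h, Real.sin_neg, Real.sin_pi, neg_zero] at s0'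
        exact absurd s0' (lt_irrefl _)
    · rcases lt_or_eq_of_le c0.2 with h | h
      · exact h
      · rw [h, Real.sin_zero] at s0'
        exact absurd s0' (lt_irrefl _)
  have c1' : 0 < θ (1, 1) ∧ θ (1, 1) < Real.pi := by
    constructor
    · rcases lt_or_eq_of_le c1.1 with h | h
      · exact h
      · rw [← h, Real.sin_zero] at s1'
        exact absurd s1' (lt_irrefl _)
    · rcases lt_or_eq_of_le c1.2 with h | h
      · exact h
      · rw [h, Real.sin_pi] at s1'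
        exact absurd s1' (lt_irrefl _)
  -- comparison with the given argument
  have u := arg_unique (f := fun y => a (τ y) - bs 1) hIcc (θ := fun y => θ (1, y))
    (θ' := fun y => ϑ (τ y)) (by fun_prop) (hϑ.comp hτc.continuousOn (fun y _ => hτm y))
    (fun y _ => hθ 1 m1 y) (fun y _ => hP _ (hτm y)) (fun y _ => hne' 1 m1 y) m0 m1
  obtain ⟨k, hk⟩ := (hθ 1 m1 0).diff (hP _ (hτm 0)) (hne' 1 m1 0)
  rw [hτ0] at hk
  have hk0 : k = 0 := by
    have h2 : |(k : ℝ) * (2 * Real.pi)| < 1 * (2 * Real.pi) := by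
      rw [← hk, abs_lt]
      constructor
      · linarith [c0'.1, hst.2]
      · linarith [c0'.2, hst.1]
    rw [abs_mul, abs_of_pos (by linarith : (0 : ℝ) < 2 * Real.pi)] at h2
    have h3 := lt_of_mul_lt_mul_right h2 (by linarith : (0 : ℝ) ≤ 2 * Real.pi)
    have h4 : |k| < 1 := by exact_mod_cast h3
    exact Int.abs_lt_one_iff.1 h4
  have e : θ (1, 1) = ϑ 1 := by
    rw [hk0] at hk
    simp only [hτ0, hτ1] at u
    push_cast at hk
    linarith
  rw [← e]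
  exact c1'

end Pool.MP_7ec17a_gt.M
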