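import Pool.Agent.Work.MP_7ec17a_gt_T.Lift

/-!
# Continuous arguments and the outside of a closed curve
-/

set_option autoImplicit false

open Set

namespace Pool.MP_7ec17a_gt.M

open Pool.MP_7ec17a_gt.T

/-- `φ` is an argument of `w`. -/
def Pol (w : ℂ) (φ : ℝ) : Prop := w.re = ‖w‖ * Real.cos φ ∧ w.im = ‖w‖ * Real.sin φ

lemma Pol.shift {w : ℂ} {φ : ℝ} (h : Pol w φ) (n : ℤ) : Pol w (φ + n * (2 * Real.pi)) := by
  unfold Pol
  rw [Real.cos_add_int_mul_two_pi, Real.sin_add_int_mul_two_pi]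
  exact h

lemma Pol.sin_pos {w : ℂ} {φ : ℝ} (h : Pol w φ) (hw : 0 < w.im) : 0 < Real.sin φ := by
  rw [h.2] at hw
  by_contra hc
  push Not at hc
  have := mul_nonpos_of_nonneg_of_nonpos (norm_nonneg w) hc
  linarith

lemma Pol.sin_neg {w : ℂ} {φ : ℝ} (h : Pol w φ) (hw : w.im < 0) : Real.sin φ < 0 := by
  rw [h.2] at hw
  by_contra hc
  push Not at hc
  have := mul_nonneg (norm_nonneg w) hc
  linarith

lemma Pol.sin_nonneg {w : ℂ} {φ : ℝ} (h : Pol w φ) (h0 : w ≠ 0) (hw : 0 ≤ w.im) :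
    0 ≤ Real.sin φ := by
  rw [h.2] at hw
  by_contra hc
  push Not at hc
  have := mul_neg_of_pos_of_neg (norm_pos_iff.2 h0) hc
  linarith

lemma Pol.sin_nonpos {w : ℂ} {φ : ℝ} (h : Pol w φ) (h0 : w ≠ 0) (hw : w.im ≤ 0) :
    Real.sin φ ≤ 0 := by
  rw [h.2] at hw
  by_contra hc
  push Not at hc
  have := mul_pos (norm_pos_iff.2 h0) hc
  linarith

/-- Two arguments of a nonzero number differ by a multiple of `2 π`. -/
lemma Pol.diff {w : ℂ} {φ ψ : ℝ} (h : Pol w φ) (h' : Pol w ψ) (h0 : w ≠ 0) :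
    ∃ n : ℤ, φ - ψ = n * (2 * Real.pi) := by
  have hn : ‖w‖ ≠ 0 := norm_ne_zero_iff.2 h0
  have h1 : Real.cos φ = Real.cos ψ := mul_left_cancel₀ hn (h.1.symm.trans h'.1)
  have h2 : Real.sin φ = Real.sin ψ := mul_left_cancel₀ hn (h.2.symm.trans h'.2)
  have h3 : Real.cos (φ - ψ) = 1 := by
    rw [Real.cos_sub, h1, h2]
    nlinarith [Real.sin_sq_add_cos_sq ψ]
  obtain ⟨n, hn'⟩ := (Real.cos_eq_one_iff _).1 h3
  exact ⟨n, hn'.symm⟩

/-- A continuous integer valued function on a preconnected set is constant. -/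
lemma int_const {X : Type*} [TopologicalSpace X] {S : Set X} (hS : IsPreconnected S) {g : X → ℝ}
    (hg : ContinuousOn g S) (hi : ∀ x ∈ S, ∃ n : ℤ, g x = n) {x y : X} (hx : x ∈ S)
    (hy : y ∈ S) : g x = g y := by
  have him : (g '' S).OrdConnected := (hS.image g hg).ordConnected
  have key : ∀ x ∈ S, ∀ y ∈ S, ¬ g x < g y := by
    intro x hx y hy hlt
    obtain ⟨n, hn⟩ := hi x hx
    obtain ⟨m, hm⟩ := hi y hy
    rw [hn, hm] at hlt
    have hlt' : n < m := by exact_mod_cast hlt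
    have h1 : ((n : ℝ) + 1 / 2) ∈ Icc (g x) (g y) := by
      rw [hn, hm]
      have : (n : ℝ) + 1 ≤ m := by exact_mod_cast hlt'
      constructor <;> linarith
    obtain ⟨z, hz, hz'⟩ := him.out (mem_image_of_mem g hx) (mem_image_of_mem g hy) h1
    obtain ⟨k, hk⟩ := hi z hz
    rw [hk] at hz'
    have h2 : (2 * k : ℝ) = 2 * n + 1 := by linarith
    have h3 : (2 * k : ℤ) = 2 * n + 1 := by exact_mod_cast h2
    omega
  exact le_antisymm (not_lt.1 (key y hy x hx)) (not_lt.1 (key x hx y hy))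

/-- Uniqueness of continuous arguments. -/
lemma arg_unique {f : ℝ → ℂ} {S : Set ℝ} (hS : IsPreconnected S) {θ θ' : ℝ → ℝ}
    (hθ : ContinuousOn θ S) (hθ' : ContinuousOn θ' S) (h : ∀ t ∈ S, Pol (f t) (θ t))
    (h' : ∀ t ∈ S, Pol (f t) (θ' t)) (h0 : ∀ t ∈ S, f t ≠ 0) {s t : ℝ} (hs : s ∈ S) (ht : t ∈ S) :
    θ s - θ' s = θ t - θ' t := by
  have hpi := Real.pi_pos
  have h1 := int_const hS (g := fun t => (θ t - θ' t) / (2 * Real.pi))
    ((hθ.sub hθ').div_const _) (fun x hx => by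
      obtain ⟨n, hn⟩ := (h x hx).diff (h' x hx) (h0 x hx)
      exact ⟨n, by rw [hn]; field_simp⟩) hs ht
  rwa [div_left_inj' (by positivity)] at h1

/-- Existence of continuous arguments on the plane. -/
lemma exists_arg' {F : ℝ × ℝ → ℂ} (hF : Continuous F) (h0 : ∀ z, F z ≠ 0) :
    ∃ θ : ℝ × ℝ → ℝ, Continuous θ ∧ ∀ z, Pol (F z) (θ z) := by
  obtain ⟨θ, h1, h2⟩ := exists_arg convex_univ isOpen_univ ⟨(0, 0), mem_univ _⟩ hF.continuousOn
    (fun z _ => h0 z)
  exact ⟨θ, continuousOn_univ.1 h1, fun z => h2 z (mem_univ z)⟩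

/-- A continuous angle with nonpositive sine stays in `[-π, 0]`. -/
lemma stay_np {X : Type*} [TopologicalSpace X] {S : Set X} (hS : IsPreconnected S) {θ : X → ℝ}
    (hθ : ContinuousOn θ S) (hs : ∀ z ∈ S, Real.sin (θ z) ≤ 0) {z0 : X} (hz0 : z0 ∈ S)
    (h0 : -Real.pi ≤ θ z0 ∧ θ z0 ≤ 0) : ∀ z ∈ S, -Real.pi ≤ θ z ∧ θ z ≤ 0 := by
  have hpi := Real.pi_pos
  intro z hz
  have him : (θ '' S).OrdConnected := (hS.image θ hθ).ordConnected
  have m0 : θ z0 ∈ θ '' S := mem_image_of_mem _ hz0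
  have m1 : θ z ∈ θ '' S := mem_image_of_mem _ hz
  constructor
  · by_contra hlt
    push Not at hlt
    set y := max (θ z) (-(3 * Real.pi / 2)) with hy
    have hy1 : y < -Real.pi := max_lt hlt (by linarith)
    have hy2 : -(3 * Real.pi / 2) ≤ y := le_max_right _ _
    obtain ⟨x, hx, hx'⟩ := him.out m1 m0 (⟨le_max_left _ _, by linarith⟩ : y ∈ Icc (θ z) (θ z0))
    have h1 := hs x hx
    rw [hx'] at h1
    have h2 : 0 < Real.sin (y + 2 * Real.pi) :=
      Real.sin_pos_of_pos_of_lt_pi (by linarith) (by linarith)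
    rw [Real.sin_add_two_pi] at h2
    linarith
  · by_contra hlt
    push Not at hlt
    set y := min (θ z) (Real.pi / 2) with hy
    have hy1 : 0 < y := lt_min hlt (by linarith)
    have hy2 : y ≤ Real.pi / 2 := min_le_right _ _
    obtain ⟨x, hx, hx'⟩ := him.out m0 m1 (⟨by linarith, min_le_left _ _⟩ : y ∈ Icc (θ z0) (θ z))
    have h1 := hs x hx
    rw [hx'] at h1
    have h2 : 0 < Real.sin y := Real.sin_pos_of_pos_of_lt_pi hy1 (by linarith)
    linarith

/-- A continuous angle with nonnegative sine stays in `[0, π]`. -/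
lemma stay_nn {X : Type*} [TopologicalSpace X] {S : Set X} (hS : IsPreconnected S) {θ : X → ℝ}
    (hθ : ContinuousOn θ S) (hs : ∀ z ∈ S, 0 ≤ Real.sin (θ z)) {z0 : X} (hz0 : z0 ∈ S)
    (h0 : 0 ≤ θ z0 ∧ θ z0 ≤ Real.pi) : ∀ z ∈ S, 0 ≤ θ z ∧ θ z ≤ Real.pi := by
  have h := stay_np hS (θ := fun z => -θ z) hθ.neg (fun z hz => by
    rw [Real.sin_neg]; linarith [hs z hz]) hz0 ⟨by linarith [h0.2], by linarith [h0.1]⟩
  intro z hz
  have := h z hz
  constructor <;> linarith [this.1, this.2]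

/-- The closed curve `c` has winding number `0` around `z`. -/
def Zer (c : ℝ → ℂ) (z : ℂ) : Prop :=
  ∃ θ : ℝ → ℝ, Continuous θ ∧ (∀ t, Pol (c t - z) (θ t)) ∧ θ 0 = θ 2

/-- Clamp to the unit interval. -/
noncomputable def cl (x : ℝ) : ℝ := max 0 (min x 1)

lemma cl_mem (x : ℝ) : cl x ∈ Icc (0 : ℝ) 1 := by
  unfold cl
  exact ⟨le_max_left _ _, max_le zero_le_one (min_le_right _ _)⟩

lemma cl_of_mem {x : ℝ} (hx : x ∈ Icc (0 : ℝ) 1) : cl x = x := by
  unfold cl
  rw [min_eq_left hx.2, max_eq_right hx.1]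

lemma cl_neg {x : ℝ} (hx : x ≤ 0) : cl x = 0 := by
  unfold cl
  rw [min_eq_left (by linarith), max_eq_left hx]

lemma cl_big {x : ℝ} (hx : 1 ≤ x) : cl x = 1 := by
  unfold cl
  rw [min_eq_right hx, max_eq_right zero_le_one]

lemma continuous_cl : Continuous cl := by unfold cl; fun_prop

/-- Invariance of the winding number. -/
lemma Zer.move {c : ℝ → ℂ} (hc : Continuous c) (h02 : c 0 = c 2) {z z' : ℂ}
    (hseg : ∀ x ∈ Icc (0 : ℝ) 1, ∀ t, c t ≠ z + x • (z' - z)) (h : Zer c z) : Zer c z' := by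
  obtain ⟨θ0, hθ0c, hθ0, h0⟩ := h
  have hpi := Real.pi_pos
  obtain ⟨θ, hθc, hθ⟩ := exists_arg' (F := fun y : ℝ × ℝ => c y.2 - (z + cl y.1 • (z' - z)))
    (by
      have := continuous_cl
      fun_prop)
    (fun y => sub_ne_zero.2 (hseg _ (cl_mem _) _))
  have hF0 : ∀ y : ℝ × ℝ, c y.2 - (z + cl y.1 • (z' - z)) ≠ 0 :=
    fun y => sub_ne_zero.2 (hseg _ (cl_mem _) _)
  have e0 : ∀ t, c t - (z + cl 0 • (z' - z)) = c t - z := fun t => by
    rw [cl_neg le_rfl, zero_smul, add_zero]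
  have e1 : ∀ t, c t - (z + cl 1 • (z' - z)) = c t - z' := fun t => by
    rw [cl_big le_rfl, one_smul]; ring
  have g0 : θ (0, 2) = θ (0, 0) := by
    have := arg_unique (f := fun t => c t - z) (S := univ) isPreconnected_univ
      (θ := fun t => θ (0, t)) (θ' := θ0) (by fun_prop) hθ0c.continuousOn
      (fun t _ => by
        have := hθ (0, t)
        simp only at this
        rwa [e0] at this) (fun t _ => hθ0 t)
      (fun t _ => by
        have := hF0 (0, t)
        simp only at this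
        rwa [e0] at this) (mem_univ (2 : ℝ)) (mem_univ (0 : ℝ))
    rw [h0] at this
    linarith
  have g1 := int_const (S := (univ : Set ℝ)) isPreconnected_univ
    (g := fun x => (θ (x, 2) - θ (x, 0)) / (2 * Real.pi)) (by fun_prop) (fun x _ => by
      have p1 := hθ (x, 2)
      have p2 := hθ (x, 0)
      simp only at p1 p2
      rw [h02] at p2
      obtain ⟨n, hn⟩ := p1.diff p2 (hF0 (x, 2))
      exact ⟨n, by rw [hn]; field_simp⟩) (mem_univ (1 : ℝ)) (mem_univ (0 : ℝ))
  rw [g0, sub_self, zero_div, div_eq_zero_iff] at g1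
  have g2 : θ (1, 2) = θ (1, 0) := by
    rcases g1 with h | h
    · linarith
    · exfalso; linarith
  refine ⟨fun t => θ (1, t), by fun_prop, fun t => ?_, g2.symm⟩
  have := hθ (1, t)
  simp only at this
  rwa [e1] at this

/-- Closed curve data. -/
structure Closed (c : ℝ → ℂ) : Prop where
  cont : Continuous c
  per : c 0 = c 2
  comp : IsCompact (range c)

namespace Closed

variable {c : ℝ → ℂ} (hc : Closed c)

include hc

lemma near {z : ℂ} (hz : z ∉ range c) : ∃ ε : ℝ, 0 < ε ∧ ∀ z' ∈ Metric.ball z ε,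
    z' ∉ range c ∧ (Zer c z ↔ Zer c z') := by
  obtain ⟨ε, hε, hb⟩ := Metric.isOpen_iff.1 hc.comp.isClosed.isOpen_compl z hz
  refine ⟨ε, hε, fun z' hz' => ⟨hb hz', ?_, ?_⟩⟩
  · apply Zer.move hc.cont hc.per
    intro x hx t h
    have hmem : z + x • (z' - z) ∈ Metric.ball z ε := by
      rw [Metric.mem_ball, dist_eq_norm] at hz' ⊢
      have e : z + x • (z' - z) - z = x • (z' - z) := by ring
      rw [e, norm_smul, Real.norm_eq_abs, abs_of_nonneg hx.1]
      have := mul_le_mul_of_nonneg_right hx.2 (norm_nonneg (z' - z))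
      linarith
    exact hb hmem ⟨t, h⟩
  · apply Zer.move hc.cont hc.per
    intro x hx t h
    have hmem : z' + x • (z - z') ∈ Metric.ball z ε := by
      rw [Metric.mem_ball, dist_eq_norm] at hz' ⊢
      have e : z' + x • (z - z') - z = (1 - x) • (z' - z) := by
        apply Complex.ext <;> simp <;> ring
      rw [e, norm_smul, Real.norm_eq_abs, abs_of_nonneg (by linarith [hx.2])]
      have := mul_le_mul_of_nonneg_right (show 1 - x ≤ 1 by linarith [hx.1])
        (norm_nonneg (z' - z))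
      linarith
    exact hb hmem ⟨t, h⟩

omit hc in
/-- The outside. -/
def Out (c : ℝ → ℂ) : Set ℂ := {z | z ∉ range c ∧ Zer c z}

lemma frontier_Out : frontier (Out c) ⊆ range c := by
  intro z hz
  by_contra hr
  obtain ⟨ε, hε, hb⟩ := hc.near hr
  by_cases hZ : Zer c z
  · have : z ∈ interior (Out c) := by
      rw [mem_interior_iff_mem_nhds]
      refine Filter.mem_of_superset (Metric.ball_mem_nhds z hε) fun z' hz' => ?_
      exact ⟨(hb z' hz').1, (hb z' hz').2.1 hZ⟩
    exact hz.2 this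
  · obtain ⟨y, hy1, hy2⟩ := mem_closure_iff.1 hz.1 _ Metric.isOpen_ball
      (Metric.mem_ball_self hε)
    exact hZ ((hb y hy1).2.2 hy2.2)

omit hc in
open Classical in
/-- Signed distance to the curve, negative outside. -/
noncomputable def side (c : ℝ → ℂ) (z : ℂ) : ℝ :=
  if z ∈ Out c then -Metric.infDist z (range c) else Metric.infDist z (range c)

lemma continuous_side : Continuous (side c) := by
  classical
  have h : side c = fun z => if z ∈ Out c then -Metric.infDist z (range c)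
      else Metric.infDist z (range c) := by
    funext z
    unfold side
    congr
  rw [h]
  refine Continuous.if ?_ (Metric.continuous_infDist_pt _).neg (Metric.continuous_infDist_pt _)
  intro z hz
  have : Metric.infDist z (range c) = 0 := Metric.infDist_zero_of_mem (hc.frontier_Out hz)
  rw [this, neg_zero]

lemma infDist_pos {z : ℂ} (hz : z ∉ range c) : 0 < Metric.infDist z (range c) :=
  (hc.comp.isClosed.notMem_iff_infDist_pos ⟨_, mem_range_self 0⟩).1 hz

lemma side_neg {z : ℂ} (hz : z ∉ range c) (h : Zer c z) : side c z < 0 := by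
  unfold side
  rw [if_pos ⟨hz, h⟩]
  have := hc.infDist_pos hz
  linarith

lemma side_pos {z : ℂ} (hz : z ∉ range c) (h : ¬ Zer c z) : 0 < side c z := by
  unfold side
  rw [if_neg fun h' => h h'.2]
  exact hc.infDist_pos hz

lemma side_zero {z : ℂ} (h : side c z = 0) : z ∈ range c := by
  by_contra hz
  have := hc.infDist_pos hz
  unfold side at h
  split_ifs at h <;> linarith

end Closed

/-- If a closed curve is on one side of a line through `z` then it does not wind around `z`. -/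
lemma zer_of_half {c : ℝ → ℂ} (hc : Continuous c) (h02 : c 0 = c 2) {z : ℂ} {κ : ℝ}
    (h : ∀ t, 0 < (c t - z).im - κ * (c t - z).re) : Zer c z := by
  set n : ℂ := ⟨-κ, 1⟩ with hn
  have hn0 : n ≠ 0 := fun h => by
    have := congrArg Complex.im h
    simp [hn] at this
  have hmul : ∀ w : ℂ, (w * (starRingEnd ℂ) n).re = w.im - κ * w.re := fun w => by
    simp only [hn, Complex.mul_re, Complex.conj_re, Complex.conj_im]; ring
  have hsl : ∀ t, (c t - z) * (starRingEnd ℂ) n ∈ Complex.slitPlane := fun t =>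
    Or.inl (by rw [hmul]; exact h t)
  refine ⟨fun t => Complex.arg ((c t - z) * (starRingEnd ℂ) n) + Complex.arg n, ?_, fun t => ?_,
    by simp only [h02]⟩
  · refine Continuous.add ?_ continuous_const
    rw [continuous_iff_continuousAt]
    intro t
    have hcc : ContinuousAt (fun t => (c t - z) * (starRingEnd ℂ) n) t := by fun_prop
    exact ContinuousAt.comp (f := fun t => (c t - z) * (starRingEnd ℂ) n)
      (Complex.continuousAt_arg (hsl t)) hcc
  · set w := c t - z with hw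
    have e1 : w = (‖w‖ : ℂ) * Complex.exp
        (((Complex.arg (w * (starRingEnd ℂ) n) + Complex.arg n : ℝ) : ℂ) * Complex.I) := by
      have h1 := Complex.norm_mul_exp_arg_mul_I (w * (starRingEnd ℂ) n)
      have h2 := Complex.norm_mul_exp_arg_mul_I n
      have hnn : (‖n‖ : ℂ) ≠ 0 := Complex.ofReal_ne_zero.2 (norm_ne_zero_iff.2 hn0)
      rw [norm_mul, Complex.norm_conj] at h1
      have h3 : w * ((‖n‖ : ℂ) * (‖n‖ : ℂ)) = (‖w‖ : ℂ) * Complex.exp
        (((Complex.arg (w * (starRingEnd ℂ) n) + Complex.arg n : ℝ) : ℂ) * Complex.I) *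
          ((‖n‖ : ℂ) * (‖n‖ : ℂ)) := by
        have e : (‖n‖ : ℂ) * (‖n‖ : ℂ) = (starRingEnd ℂ) n * n := by
          rw [mul_comm ((starRingEnd ℂ) n) n, Complex.mul_conj, Complex.normSq_eq_norm_sq]
          push_cast; ring
        have h12 : (w * (starRingEnd ℂ) n) * n = (((‖w‖ : ℂ) * (‖n‖ : ℂ)) * Complex.exp
            ((Complex.arg (w * (starRingEnd ℂ) n) : ℂ) * Complex.I)) *
            ((‖n‖ : ℂ) * Complex.exp ((Complex.arg n : ℂ) * Complex.I)) := by
          rw [h2, ← Complex.ofReal_mul, h1]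
        calc w * ((‖n‖ : ℂ) * (‖n‖ : ℂ)) = (w * (starRingEnd ℂ) n) * n := by rw [e]; ring
          _ = _ := by
            rw [h12]
            push_cast
            rw [add_mul, Complex.exp_add]
            ring
      exact mul_right_cancel₀ (mul_ne_zero hnn hnn) h3
    constructor
    · nth_rewrite 1 [e1]
      rw [Complex.re_ofReal_mul, Complex.exp_ofReal_mul_I_re]
    · nth_rewrite 1 [e1]
      rw [Complex.im_ofReal_mul, Complex.exp_ofReal_mul_I_im]

end Pool.MP_7ec17a_gt.M
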